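import Pool.Agent.Helper65.IS.St

set_option autoImplicit false

namespace Pool.Agent.Helper65.IS

open Equiv

private theorem fl_fst (a : Ltr) : (fl a).1 = a.1 := rfl

private theorem fl_fl (a : Ltr) : fl (fl a) = a := by
  unfold fl
  simp

private theorem fl_inj {a b : Ltr} (h : fl a = fl b) : a = b := by
  rw [← fl_fl a, h, fl_fl]

private theorem mem_con {w : List Ltr} {a : Ltr} (h : a.1 ∈ con w) : a ∈ w ∨ fl a ∈ w := by
  unfold con at h
  rw [List.mem_toFinset, List.mem_map] at h
  obtain ⟨b, hb, hb1⟩ := h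
  obtain ⟨b1, b2⟩ := b
  obtain ⟨a1, a2⟩ := a
  simp only at hb1
  subst hb1
  unfold fl
  cases a2 <;> cases b2 <;> simp_all

private theorem con_mem {w : List Ltr} {a : Ltr} (h : a ∈ w) : a.1 ∈ con w := by
  unfold con
  rw [List.mem_toFinset, List.mem_map]
  exact ⟨a, h, rfl⟩

theorem adj (hb : StBAS) : StADJ := by
  obtain ⟨hss, -, -, -, -, -, -, -, hmap, hcon, -⟩ := hb
  intro w π hπ hw
  have h1 : w = w.map (fun a => π (π a)) := by
    have h := hss w
    rw [hw, hmap π hπ, hw, List.map_map] at h
    exact h.symm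
  have h2 : ∀ a ∈ w, π (π a) = a := by
    have h : w.map (fun a => π (π a)) = w.map id := by
      rw [List.map_id]
      exact h1.symm
    intro a ha
    exact (List.map_inj_left.1 h) a ha
  have h3 : ∀ a : Ltr, a.1 ∈ con w → π (π a) = a := by
    intro a ha
    rcases mem_con ha with h | h
    · exact h2 a h
    · have h4 := h2 _ h
      rw [hπ, hπ] at h4
      exact fl_inj h4
  have h4 : ∀ a : Ltr, a.1 ∈ con w → (π a).1 ∈ con w := by
    intro a ha
    rcases mem_con ha with h | h
    · rw [← hcon w, hw]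
      exact con_mem (List.mem_map_of_mem h)
    · have h5 : π (fl a) ∈ w.map π := List.mem_map_of_mem h
      rw [hπ] at h5
      rw [← hcon w, hw]
      have h6 := con_mem h5
      rwa [fl_fst] at h6
  have hinv : Function.Involutive (fun a : Ltr => if a.1 ∈ con w then π a else a) := by
    intro a
    by_cases ha : a.1 ∈ con w
    · simp only [if_pos ha, if_pos (h4 a ha)]
      exact h3 a ha
    · simp only [if_neg ha]
  have hom : ∀ a : Ltr, (Function.Involutive.toPerm _ hinv : Perm Ltr) a = if a.1 ∈ con w then π a else a := fun a => rfl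
  refine ⟨Function.Involutive.toPerm _ hinv, ⟨?_, ?_⟩, ?_, ?_, ?_⟩
  · intro a
    rw [hom, hom, fl_fst]
    by_cases ha : a.1 ∈ con w
    · rw [if_pos ha, if_pos ha, hπ]
    · rw [if_neg ha, if_neg ha]
  · intro a ha
    rw [hom, if_neg ha]
  · ext1 a
    rw [Perm.mul_apply]
    exact hinv a
  · rw [hw]
    refine List.map_congr_left fun a ha => ?_
    rw [hom, if_pos (con_mem ha)]
  · intro a ha
    rw [hom, if_pos (con_mem ha)]

end Pool.Agent.Helper65.IS
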