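import Pool.Agent.Helper65.IS.St

set_option autoImplicit false

namespace Pool.Agent.Helper65.IS

open Equiv

theorem rho_mono {th : List Ltr → List Ltr → Prop} {w : List Ltr} {H H' : Subgroup (Perm Ltr)}
    (h : H ≤ H') : ∀ u v, rho th w H u v → rho th w H' u v := by
  rintro u v ⟨h1, h2, h3 | h3 | ⟨π, hπ, g, hg, h4⟩⟩
  · exact ⟨h1, h2, Or.inl h3⟩
  · exact ⟨h1, h2, Or.inr (Or.inl h3)⟩
  · exact ⟨h1, h2, Or.inr (Or.inr ⟨π, hπ, g, h hg, h4⟩)⟩

/-- The variety defined by a relation. -/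
def KM (r : List Ltr → List Ltr → Prop) : Set InvSg := Mod {e | r e.1.1 e.2.1}

theorem mem_con_iff {u : List Ltr} {i : ℕ} : i ∈ con u ↔ ∃ a ∈ u, a.1 = i := by
  simp [con]

theorem fin (hbir : StBIR) (hth : StTH) (hadj : StADJ) (hrho : StRHO) (hdist : StDIST)
    (hmeet : StMEET) (hjoin : StJOIN) (hpen : StPEN) : StFIN := by
  intro V hV hmod w hiso
  obtain ⟨w, hw⟩ := w
  obtain ⟨T, hT⟩ := hV
  set th : List Ltr → List Ltr → Prop :=
    fun u v => ∃ (hu : u ≠ []) (hv : v ≠ []), ((⟨u, hu⟩, ⟨v, hv⟩) : Word × Word) ∈ Th V with hthdef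
  have hFth : FIC th := hth V
  have hwiso : ∀ u, th w u → u = w := by
    rintro u ⟨hu, hv, h⟩
    have := hiso ⟨u, hv⟩ h
    exact congrArg Subtype.val this
  -- the main argument
  have main : ∀ om : Perm Ltr, InG (con w) om → om * om = 1 →
      (∀ om', InG (con w) om' → st w = w.map om' → om' = om) →
      (3 ≤ (con w).card ∨ (2 ≤ (con w).card ∧ ((∀ a : Ltr, a.1 ∈ con w → om a = a) ∨
        ∀ a : Ltr, a.1 ∈ con w → om a = fl a))) → False := by
    intro om hom homom huniq hcase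
    obtain ⟨H1, H2, K, hG, h12, ⟨g, hg2, hg1⟩, hbot, hle, hn1, hn2, hnK⟩ :=
      hpen (con w) om hom homom hcase
    have hadm1 : Adm w H1 := by
      refine ⟨fun h hh => hG h (Subgroup.mem_sup_left (h12 hh)), fun om' ho' hs h hh => ?_⟩
      rw [huniq om' ho' hs]; exact hn1 h hh
    have hadm2 : Adm w H2 := by
      refine ⟨fun h hh => hG h (Subgroup.mem_sup_left hh), fun om' ho' hs h hh => ?_⟩
      rw [huniq om' ho' hs]; exact hn2 h hh
    have hadmK : Adm w K := by
      refine ⟨fun h hh => hG h (Subgroup.mem_sup_right hh), fun om' ho' hs h hh => ?_⟩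
      rw [huniq om' ho' hs]; exact hnK h hh
    obtain ⟨hF1, hc1⟩ := hrho th w H1 hFth hw hwiso hadm1
    obtain ⟨hF2, hc2⟩ := hrho th w H2 hFth hw hwiso hadm2
    obtain ⟨hFK, hcK⟩ := hrho th w K hFth hw hwiso hadmK
    obtain ⟨S1, hS1⟩ := hbir _ hF1
    obtain ⟨S2, hS2⟩ := hbir _ hF2
    obtain ⟨SK, hSK⟩ := hbir _ hFK
    set X := KM (rho th w H2) with hX
    set Y := KM (rho th w K) with hY
    set Z := KM (rho th w H1) with hZ
    have hsubV : ∀ r : List Ltr → List Ltr → Prop, (∀ u v, th u v → r u v) → KM r ⊆ V := by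
      intro r hr S hS
      rw [hT]
      intro e he
      apply hS e
      apply hr
      refine ⟨e.1.2, e.2.2, ?_⟩
      intro S' hS'
      rw [hT] at hS'
      exact hS' e he
    have hXZ : X ⊆ Z := by
      intro S hS e he
      exact hS e (rho_mono h12 _ _ he)
    have hmodular := hmod X Y Z ⟨_, rfl⟩ ⟨_, rfl⟩ ⟨_, rfl⟩ (hsubV _ hc2) (hsubV _ hcK)
      (hsubV _ hc1) hXZ
    have hS1Z : S1 ∈ Z := fun e he => (hS1 e.1 e.2).2 he
    have hS2X : S2 ∈ X := fun e he => (hS2 e.1 e.2).2 he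
    have hSKY : SK ∈ Y := fun e he => (hSK e.1 e.2).2 he
    have hS1j : S1 ∈ vjoin X Y := by
      intro e he
      have e2 := (hS2 e.1 e.2).1 (he S2 (Or.inl hS2X))
      have eK := (hSK e.1 e.2).1 (he SK (Or.inr hSKY))
      have e3 := hmeet th w H2 K hFth hw hwiso hadm2 hadmK _ _ e2 eK
      rw [hbot] at e3
      exact (hS1 e.1 e.2).2 (rho_mono bot_le _ _ e3)
    have hS1l : S1 ∈ vjoin X (Y ∩ Z) := by
      rw [hmodular]
      exact ⟨hS1j, hS1Z⟩
    have hgG : InG (con w) g := hG g (Subgroup.mem_sup_left hg2)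
    have hwg : w.map g ≠ [] := by simpa using hw
    have hrel : rho th w H2 w (w.map g) := by
      refine ⟨hw, hwg, Or.inr (Or.inr ⟨1, fun a => rfl, g, hg2, Or.inl ⟨?_, ?_⟩⟩)⟩
      · simp
      · rw [one_mul]
    have hident : (((⟨w, hw⟩ : Word), (⟨w.map g, hwg⟩ : Word))) ∈ Th (X ∪ (Y ∩ Z)) := by
      rintro S (hS | ⟨hSY, hSZ⟩)
      · exact hS (⟨w, hw⟩, ⟨w.map g, hwg⟩) hrel
      · have hFS := hth {S}
        have hmem : ∀ (u v : Word), (∃ (hu : u.1 ≠ []) (hv : v.1 ≠ []),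
            ((⟨u.1, hu⟩, ⟨v.1, hv⟩) : Word × Word) ∈ Th {S}) ↔ Sat S u v := by
          intro u v
          constructor
          · rintro ⟨hu, hv, h⟩
            exact h S rfl
          · intro h
            refine ⟨u.2, v.2, ?_⟩
            rintro S' rfl
            exact h
        have hj := hjoin th w H1 H2 K hle (fun h hh => (hG h
          ((sup_le_sup_right h12 K) hh)).1) _ hFS
          (fun u v huv => by
            have hu := huv.1
            have hv := huv.2.1
            exact (hmem ⟨u, hu⟩ ⟨v, hv⟩).2 (hSZ (⟨u, hu⟩, ⟨v, hv⟩) huv))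
          (fun u v huv => by
            have hu := huv.1
            have hv := huv.2.1
            exact (hmem ⟨u, hu⟩ ⟨v, hv⟩).2 (hSY (⟨u, hu⟩, ⟨v, hv⟩) huv))
          hw w (w.map g) hrel
        exact (hmem ⟨w, hw⟩ ⟨w.map g, hwg⟩).1 hj
    have hsat := hS1l _ hident
    have := (hS1 ⟨w, hw⟩ ⟨w.map g, hwg⟩).1 hsat
    exact hg1 (hdist th w H1 hFth hw hwiso hadm1 g hgG this)
  have uniq : ∀ om om' : Perm Ltr, InG (con w) om → InG (con w) om' → (∀ a ∈ w, om a = om' a) →
      om = om' := by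
    intro om om' h1 h2 h
    ext1 a
    by_cases ha : a.1 ∈ con w
    · obtain ⟨b, hb, hba⟩ := mem_con_iff.1 ha
      have hab : a = b ∨ a = fl b := by
        obtain ⟨i, s⟩ := a
        obtain ⟨j, t⟩ := b
        dsimp only at hba
        subst hba
        cases s <;> cases t <;> simp [fl]
      rcases hab with rfl | rfl
      · exact h _ hb
      · rw [h1.1, h2.1, h _ hb]
    · rw [h1.2 a ha, h2.2 a ha]
  have mapeq : ∀ f g : Ltr → Ltr, w.map f = w.map g → ∀ a ∈ w, f a = g a := by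
    intro f g h
    exact List.map_inj_left.1 h
  have lft : ∀ (om : Perm Ltr) (F : Ltr → Ltr), Ren om → (∀ a, F (fl a) = fl (F a)) →
      (∀ a ∈ w, om a = F a) → ∀ a : Ltr, a.1 ∈ con w → om a = F a := by
    intro om F h1 h2 h a ha
    obtain ⟨b, hb, hba⟩ := mem_con_iff.1 ha
    have hab : a = b ∨ a = fl b := by
      obtain ⟨i, s⟩ := a
      obtain ⟨j, t⟩ := b
      dsimp only at hba
      subst hba
      cases s <;> cases t <;> simp [fl]
    rcases hab with rfl | rfl
    · exact h _ hb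
    · rw [h1, h2, h _ hb]
  -- the dichotomy
  have hno : ¬ (∃ π : Perm Ltr, Ren π ∧ st w = w.map π) →
      ∀ om', InG (con w) om' → st w = w.map om' → om' = 1 := by
    intro h om' ho hs
    exact absurd ⟨om', ho.1, hs⟩ h
  have hone : InG (con w) 1 := ⟨fun a => rfl, fun a _ => rfl⟩
  constructor
  · by_contra hcard
    have hc3 : 3 ≤ (con w).card := by
      simp only [not_le] at hcard
      omega
    by_cases hex : ∃ π : Perm Ltr, Ren π ∧ st w = w.map π
    · obtain ⟨π, hπ, hs⟩ := hex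
      obtain ⟨om, ho1, ho2, ho3, ho4⟩ := hadj w π hπ hs
      refine main om ho1 ho2 (fun om' h1 h2 => ?_) (Or.inl hc3)
      exact uniq om' om h1 ho1 (mapeq _ _ (h2.symm.trans ho3))
    · exact main 1 hone (one_mul 1) (hno hex) (Or.inl hc3)
  · intro hc2
    change (con w).card = 2 at hc2
    by_contra hcon
    push Not at hcon
    by_cases hex : ∃ π : Perm Ltr, Ren π ∧ st w = w.map π
    · obtain ⟨π, hπ, hs⟩ := hex
      obtain ⟨om, ho1, ho2, ho3, ho4⟩ := hadj w π hπ hs
      refine main om ho1 ho2 (fun om' h1 h2 => ?_) (Or.inr ⟨hc2.ge, ?_⟩)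
      · exact uniq om' om h1 ho1 (mapeq _ _ (h2.symm.trans ho3))
      · by_cases h1 : ∀ a ∈ w, om a = a
        · exact Or.inl (lft om id ho1.1 (fun a => rfl) h1)
        · right
          have h3 := hcon om ho1.1 ho3 (by
            push Not at h1
            exact h1)
          exact lft om fl ho1.1 (fun a => rfl) h3
    · exact main 1 hone (one_mul 1) (hno hex) (Or.inr ⟨hc2.ge, Or.inl fun a _ => rfl⟩)

end Pool.Agent.Helper65.IS
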