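import Pool.Agent.Helper65.IS.St

set_option autoImplicit false

namespace Pool.Agent.Helper65.IS

open Equiv

private lemma fl_fl_bas (a : Ltr) : fl (fl a) = a := by
  obtain ⟨i, b⟩ := a
  simp [fl]

private lemma st_st_bas (u : List Ltr) : st (st u) = u := by
  unfold st
  rw [List.map_reverse, List.reverse_reverse, List.map_map]
  have : (fl ∘ fl : Ltr → Ltr) = id := by
    funext a
    exact fl_fl_bas a
  rw [this, List.map_id]

private lemma st_append_bas (u v : List Ltr) : st (u ++ v) = st v ++ st u := by
  unfold st
  rw [List.map_append, List.reverse_append]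

private lemma sub_append_bas (φ : ℕ → List Ltr) (u v : List Ltr) :
    sub φ (u ++ v) = sub φ u ++ sub φ v := by
  unfold sub
  rw [List.flatMap_append]

private lemma sub_cons_bas (φ : ℕ → List Ltr) (a : Ltr) (u : List Ltr) :
    sub φ (a :: u) = (if a.2 then st (φ a.1) else φ a.1) ++ sub φ u := by
  unfold sub
  rw [List.flatMap_cons]

private lemma sub_nil_bas (φ : ℕ → List Ltr) : sub φ [] = [] := rfl

private lemma st_cons_bas (a : Ltr) (u : List Ltr) : st (a :: u) = st u ++ [fl a] := by
  unfold st
  rw [List.map_cons, List.reverse_cons]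

private lemma sub_single_bas (φ : ℕ → List Ltr) (a : Ltr) :
    sub φ [a] = (if a.2 then st (φ a.1) else φ a.1) := by
  rw [sub_cons_bas, sub_nil_bas, List.append_nil]

private lemma sub_st_bas (φ : ℕ → List Ltr) (u : List Ltr) : sub φ (st u) = st (sub φ u) := by
  induction u with
  | nil => rfl
  | cons a u ih =>
    rw [st_cons_bas, sub_append_bas, ih, sub_single_bas, sub_cons_bas φ a u, st_append_bas]
    congr 1
    obtain ⟨i, b⟩ := a
    cases b
    · simp [fl]
    · simp [fl, st_st_bas]

private lemma sub_sub_bas (φ ψ : ℕ → List Ltr) (u : List Ltr) :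
    sub ψ (sub φ u) = sub (fun i => sub ψ (φ i)) u := by
  induction u with
  | nil => rfl
  | cons a u ih =>
    rw [sub_cons_bas, sub_append_bas, ih, sub_cons_bas]
    congr 1
    obtain ⟨i, b⟩ := a
    cases b
    · simp
    · simp [sub_st_bas]

private lemma length_st_bas (u : List Ltr) : (st u).length = u.length := by
  simp [st]

private lemma length_bas (φ : ℕ → List Ltr) (u : List Ltr) (h : ∀ i, φ i ≠ []) :
    u.length ≤ (sub φ u).length := by
  induction u with
  | nil => simp
  | cons a u ih =>
    rw [sub_cons_bas, List.length_append, List.length_cons]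
    have h1 : 1 ≤ (if a.2 then st (φ a.1) else φ a.1).length := by
      have h2 : 0 < (φ a.1).length := List.length_pos_iff.2 (h a.1)
      split_ifs
      · rw [length_st_bas]
        exact h2
      · exact h2
    omega

private lemma ne_bas (φ : ℕ → List Ltr) (u : List Ltr) (h : ∀ i, φ i ≠ []) (hu : u ≠ []) :
    sub φ u ≠ [] := by
  intro e
  have h1 := length_bas φ u h
  rw [e] at h1
  have h2 : 0 < u.length := List.length_pos_iff.2 hu
  simp at h1
  exact hu h1

private lemma map_ren_bas (π : Perm Ltr) (h : Ren π) (u : List Ltr) :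
    u.map π = sub (fun i => [π (i, false)]) u := by
  induction u with
  | nil => rfl
  | cons a u ih =>
    rw [List.map_cons, sub_cons_bas, ← ih]
    obtain ⟨i, b⟩ := a
    cases b
    · simp
    · have h1 : π (i, true) = fl (π (i, false)) := h (i, false)
      simp [h1, st]

private lemma st_map_bas (π : Perm Ltr) (h : Ren π) (u : List Ltr) :
    st (u.map π) = (st u).map π := by
  unfold st
  rw [List.map_reverse, List.map_map, List.map_map]
  congr 1
  refine List.map_congr_left (fun a _ => ?_)
  exact (h a).symm

private lemma con_st_bas (u : List Ltr) : con (st u) = con u := by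
  ext i
  unfold con st
  simp only [List.mem_toFinset, List.mem_map, List.mem_reverse]
  constructor
  · rintro ⟨a, ⟨b, hb, rfl⟩, rfl⟩
    exact ⟨b, hb, rfl⟩
  · rintro ⟨b, hb, rfl⟩
    exact ⟨fl b, ⟨b, hb, rfl⟩, rfl⟩

theorem bas : StBAS := by
  refine ⟨st_st_bas, st_append_bas, sub_st_bas, sub_append_bas, sub_sub_bas,
    length_bas, ne_bas, map_ren_bas, st_map_bas, con_st_bas, fun u v h => ?_⟩
  rw [← st_st_bas u, h, st_st_bas]

end Pool.Agent.Helper65.IS
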