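import Pool.Agent.Helper65.IS.St

set_option autoImplicit false

namespace Pool.Agent.Helper65.IS

namespace Bir

theorem st_ne {u : List Ltr} (h : u ≠ []) : st u ≠ [] := by
  unfold st
  simpa using h

theorem fl_fl (a : Ltr) : fl (fl a) = a := by
  unfold fl
  simp

theorem st_st (u : List Ltr) : st (st u) = u := by
  unfold st
  rw [List.map_reverse, List.reverse_reverse, List.map_map]
  have : fl ∘ fl = id := funext fl_fl
  rw [this, List.map_id]

theorem st_append (u v : List Ltr) : st (u ++ v) = st v ++ st u := by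
  unfold st
  simp

theorem cat {r : List Ltr → List Ltr → Prop} (h : FIC r) {u u' v v' : List Ltr}
    (h1 : r u u') (h2 : r v v') : r (u ++ v) (u' ++ v') := by
  have e1 := h.ctx u u' [] v h1
  have e2 := h.ctx v v' u' [] h2
  simp only [List.nil_append, List.append_nil] at e1 e2
  exact h.trans _ _ _ e1 e2

/-- The setoid of `r` on words. -/
def sd {r : List Ltr → List Ltr → Prop} (h : FIC r) : Setoid Word where
  r u v := r u.1 v.1
  iseqv := ⟨fun u => h.refl u.1 u.2, fun {u v} e => h.symm u.1 v.1 e,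
    fun {u v w} e f => h.trans u.1 v.1 w.1 e f⟩

/-- Concatenation. -/
def wm (u v : Word) : Word := ⟨u.1 ++ v.1, by simp [u.2]⟩

/-- Star. -/
def ws (u : Word) : Word := ⟨st u.1, st_ne u.2⟩

/-- The relatively free object. -/
def fo {r : List Ltr → List Ltr → Prop} (h : FIC r) : InvSg where
  C := Quotient (sd h)
  mul := Quotient.map₂ wm (fun _ _ e _ _ f => cat h e f)
  star := Quotient.map ws (fun u v e => h.star u.1 v.1 e)
  assoc := by
    intro a b c
    induction a, b, c using Quotient.inductionOn₃ with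
    | _ a b c =>
      simp only [Quotient.map₂_mk]
      congr 1
      exact Subtype.ext (List.append_assoc _ _ _)
  star_star := by
    intro a
    induction a using Quotient.inductionOn with
    | _ a =>
      simp only [Quotient.map_mk]
      congr 1
      exact Subtype.ext (st_st _)
  star_mul := by
    intro a b
    induction a, b using Quotient.inductionOn₂ with
    | _ a b =>
      simp only [Quotient.map₂_mk, Quotient.map_mk]
      congr 1
      exact Subtype.ext (st_append _ _)

/-- Image of a letter. -/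
def img (φ : ℕ → List Ltr) (a : Ltr) : List Ltr := if a.2 then st (φ a.1) else φ a.1

theorem img_ne {φ : ℕ → List Ltr} (hφ : ∀ i, φ i ≠ []) (a : Ltr) : img φ a ≠ [] := by
  unfold img
  split
  · exact st_ne (hφ _)
  · exact hφ _

theorem sub_cons (φ : ℕ → List Ltr) (a : Ltr) (u : List Ltr) :
    sub φ (a :: u) = img φ a ++ sub φ u := by
  unfold sub img
  simp

theorem sub_ne {φ : ℕ → List Ltr} (hφ : ∀ i, φ i ≠ []) : ∀ {u : List Ltr}, u ≠ [] → sub φ u ≠ []
  | [], h => absurd rfl h
  | a :: u, _ => by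
    rw [sub_cons]
    simp [img_ne hφ a]

/-- The valuation given by `φ`. -/
def val {r : List Ltr → List Ltr → Prop} (h : FIC r) (φ : ℕ → List Ltr) (hφ : ∀ i, φ i ≠ []) :
    ℕ → (fo h).C := fun i => Quotient.mk (sd h) ⟨φ i, hφ i⟩

theorem lit_eq {r : List Ltr → List Ltr → Prop} (h : FIC r) (φ : ℕ → List Ltr)
    (hφ : ∀ i, φ i ≠ []) (a : Ltr) :
    lit (fo h) (val h φ hφ) a = Quotient.mk (sd h) ⟨img φ a, img_ne hφ a⟩ := by
  obtain ⟨i, b⟩ := a
  cases b
  · rfl
  · rfl

theorem evl_eq {r : List Ltr → List Ltr → Prop} (h : FIC r) (φ : ℕ → List Ltr)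
    (hφ : ∀ i, φ i ≠ []) : ∀ (u : List Ltr) (hu : u ≠ []),
    evl (fo h) (val h φ hφ) u = some (Quotient.mk (sd h) ⟨sub φ u, sub_ne hφ hu⟩)
  | [], hu => absurd rfl hu
  | [a], _ => by
    unfold evl
    rw [evl, lit_eq]
    have e : (⟨img φ a, img_ne hφ a⟩ : Word) = ⟨sub φ [a], sub_ne hφ (List.cons_ne_nil _ _)⟩ := by
      apply Subtype.ext
      change img φ a = sub φ [a]
      rw [sub_cons]
      simp [sub]
    rw [e]
    rfl
  | a :: b :: t, _ => by
    have ih := evl_eq h φ hφ (b :: t) (List.cons_ne_nil _ _)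
    rw [evl, ih, lit_eq]
    have : (fo h).mul (Quotient.mk (sd h) ⟨img φ a, img_ne hφ a⟩)
        (Quotient.mk (sd h) ⟨sub φ (b :: t), sub_ne hφ (List.cons_ne_nil _ _)⟩) =
        Quotient.mk (sd h) (wm ⟨img φ a, img_ne hφ a⟩
          ⟨sub φ (b :: t), sub_ne hφ (List.cons_ne_nil _ _)⟩) := rfl
    simp only [this]
    have e : wm ⟨img φ a, img_ne hφ a⟩ ⟨sub φ (b :: t), sub_ne hφ (List.cons_ne_nil _ _)⟩ =
        (⟨sub φ (a :: b :: t), sub_ne hφ (List.cons_ne_nil _ _)⟩ : Word) := by
      apply Subtype.ext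
      change img φ a ++ sub φ (b :: t) = sub φ (a :: b :: t)
      rw [sub_cons φ a (b :: t)]
    rw [e]
    rfl

theorem sub_id : ∀ u : List Ltr, sub (fun i => [(i, false)]) u = u
  | [] => rfl
  | a :: u => by
    rw [sub_cons, sub_id u]
    obtain ⟨i, b⟩ := a
    cases b <;> simp [img, st, fl]

end Bir

open Bir in
theorem bir : StBIR := by
  intro r h
  refine ⟨fo h, ?_⟩
  intro u v
  constructor
  · intro hs
    have h1 := hs (val h (fun i => [(i, false)]) (fun i => List.cons_ne_nil _ _))
    rw [evl_eq h _ _ u.1 u.2, evl_eq h _ _ v.1 v.2] at h1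
    have h2 := Quotient.exact (Option.some.inj h1)
    have h3 : r (sub (fun i => [(i, false)]) u.1) (sub (fun i => [(i, false)]) v.1) := h2
    rwa [sub_id, sub_id] at h3
  · intro hr w
    have hw : w = val h (fun i => (Quotient.out (w i)).1) (fun i => (Quotient.out (w i)).2) := by
      funext i
      exact (Quotient.out_eq (w i)).symm
    rw [hw, evl_eq h _ _ u.1 u.2, evl_eq h _ _ v.1 v.2]
    congr 1
    apply Quotient.sound
    exact h.subst u.1 v.1 _ (fun i => (Quotient.out (w i)).2) hr

end Pool.Agent.Helper65.IS
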