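import Pool.Agent.Helper65.IS.St

set_option autoImplicit false

namespace Pool.Agent.Helper65.IS

open Equiv

private lemma fl_fl_dist (a : Ltr) : fl (fl a) = a := by
  obtain ⟨i, b⟩ := a
  simp [fl]

private lemma mem_con_dist {w : List Ltr} {i : ℕ} : i ∈ con w ↔ ∃ b ∈ w, b.1 = i := by
  simp [con]

private lemma idx_dist {w : List Ltr} {h : Perm Ltr} (hh : InG (con w) h) {a : Ltr}
    (ha : a.1 ∈ con w) : (h a).1 ∈ con w := by
  by_contra hc
  have h1 := hh.2 _ hc
  have h2 : h a = a := h.injective h1
  rw [h2] at hc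
  exact hc ha

/-- two renamings which agree on `w` agree on all letters with index in `con w` -/
private lemma agree_dist {w : List Ltr} {f g : Perm Ltr} (hf : Ren f) (hg : Ren g)
    (h : ∀ a ∈ w, f a = g a) {a : Ltr} (ha : a.1 ∈ con w) : f a = g a := by
  obtain ⟨b, hb, hba⟩ := mem_con_dist.1 ha
  have h1 : a = b ∨ a = fl b := by
    obtain ⟨i, x⟩ := a
    obtain ⟨j, y⟩ := b
    simp only at hba
    subst hba
    cases x <;> cases y <;> simp [fl]
  rcases h1 with h1 | h1
  · rw [h1]; exact h b hb
  · rw [h1, hf b, hg b, h b hb]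

private lemma eq_dist {w : List Ltr} {f g : Perm Ltr} (hf : InG (con w) f) (hg : InG (con w) g)
    (h : ∀ a ∈ w, f a = g a) : f = g := by
  ext1 a
  by_cases ha : a.1 ∈ con w
  · exact agree_dist hf.1 hg.1 h ha
  · rw [hf.2 a ha, hg.2 a ha]

private lemma ai_dist (π : Perm Ltr) (a : Ltr) : π ((π⁻¹ : Perm Ltr) a) = a := by
  rw [← Perm.mul_apply, mul_inv_cancel]
  rfl

private lemma ia_dist (π : Perm Ltr) (a : Ltr) : (π⁻¹ : Perm Ltr) (π a) = a := by
  rw [← Perm.mul_apply, inv_mul_cancel]
  rfl

private lemma ren_inv_dist {π : Perm Ltr} (hπ : Ren π) : Ren π⁻¹ := by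
  intro a
  have h1 : π (π⁻¹ (fl a)) = π (fl (π⁻¹ a)) := by
    rw [hπ, ai_dist, ai_dist]
  exact π.injective h1

private lemma mem_con_of_mem_dist {w : List Ltr} {a : Ltr} (ha : a ∈ w) : a.1 ∈ con w :=
  mem_con_dist.2 ⟨a, ha, rfl⟩

theorem dist (_hb : StBAS) (ha : StADJ) (hi : StISO) : StDIST := by
  intro th w H hth hw hiso hadm g hg hr
  have hss : SS w w := ⟨1, fun a => rfl, Or.inl (by simp)⟩
  have hnn : NN w w := (hi th w hth hw hiso).2.2 w hss
  obtain ⟨-, -, hr⟩ := hr
  rcases hr with hr | hr | hr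
  · exact absurd hnn hr.1
  · exact absurd hss hr.2.2.1
  · obtain ⟨π, hπ, h, hh, hr⟩ := hr
    have hhG : InG (con w) h := hadm.1 h hh
    rcases hr with ⟨h1, h2⟩ | ⟨h1, h2⟩
    · -- first form
      have e1 : ∀ a ∈ w, π a = (1 : Perm Ltr) a := by
        have : w.map π = w.map (1 : Perm Ltr) := by
          rw [← h1]
          simp
        exact List.map_eq_map_iff.1 this
      have e2 : ∀ a ∈ w, g a = (π * h) a := List.map_eq_map_iff.1 h2
      have e3 : g = h := by
        apply eq_dist hg hhG
        intro a haw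
        rw [e2 a haw, Perm.mul_apply]
        exact agree_dist hπ (fun a => rfl) e1 (idx_dist hhG (mem_con_of_mem_dist haw))
      rw [e3]
      exact hh
    · -- second form
      have h3 : st w = w.map (π⁻¹ : Perm Ltr) := by
        have : w.map (π⁻¹ : Perm Ltr) = ((st w).map π).map (π⁻¹ : Perm Ltr) := by rw [← h1]
        rw [this, List.map_map]
        have e : ((π⁻¹ : Perm Ltr) : Ltr → Ltr) ∘ (π : Ltr → Ltr) = id := by
          funext a
          exact ia_dist π a
        rw [e, List.map_id]
      obtain ⟨om, hom, homm, hst, hag⟩ := ha w π⁻¹ (ren_inv_dist hπ) h3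
      have hk := hadm.2 om hom hst h hh
      have e1 : ∀ a : Ltr, a.1 ∈ con w → om a = π⁻¹ a := fun a haw =>
        agree_dist hom.1 (ren_inv_dist hπ) hag haw
      have oo : ∀ a, om (om a) = a := fun a => by
        rw [← Perm.mul_apply, homm]
        rfl
      have e2 : ∀ b : Ltr, b.1 ∈ con w → π b = om b := by
        intro b hb
        have h4 := e1 (om b) (idx_dist hom hb)
        rw [oo] at h4
        have h5 := congrArg π h4
        rw [ai_dist] at h5
        exact h5
      have e3 : ∀ a ∈ w, g a = π (h (om a)) := by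
        have : w.map g = w.map (fun a => π (h (om a))) := by
          rw [h2, hst, List.map_map]
          rfl
        exact List.map_eq_map_iff.1 this
      have hinv : ∀ a, om⁻¹ a = om a := by
        intro a
        rw [Perm.inv_eq_iff_eq]
        exact (oo a).symm
      have e4 : g = om⁻¹ * h * om := by
        have hkG : InG (con w) (om⁻¹ * h * om) := hadm.1 _ hk
        apply eq_dist hg hkG
        intro a haw
        rw [e3 a haw]
        have hb : (h (om a)).1 ∈ con w :=
          idx_dist hhG (idx_dist hom (mem_con_of_mem_dist haw))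
        rw [e2 _ hb, Perm.mul_apply, Perm.mul_apply, hinv]
      rw [e4]
      exact hk

end Pool.Agent.Helper65.IS
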