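import Pool.Agent.Helper65.IS.St

/-!
# MP_265e56_al, project IS, module EXT: extension of partial renamings
-/

set_option autoImplicit false

namespace Pool.Agent.Helper65.IS

open Equiv

/-- the renaming given by a permutation of the indices and signs -/
private def perm_EXT (σ : Perm ℕ) (e : ℕ → Bool) : Perm Ltr where
  toFun a := (σ a.1, xor a.2 (e a.1))
  invFun a := (σ.symm a.1, xor a.2 (e (σ.symm a.1)))
  left_inv a := by
    obtain ⟨i, b⟩ := a
    simp
  right_inv a := by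
    obtain ⟨i, b⟩ := a
    simp

theorem ext : StEXT := by
  intro c f hf
  classical
  let g : (↑c : Set ℕ) ↪ ℕ := ⟨fun i => (f i.1).1, fun i j h => Subtype.ext
    (hf i.1 (Finset.mem_coe.1 i.2) j.1 (Finset.mem_coe.1 j.2) h)⟩
  have hlt : Cardinal.mk (↑c : Set ℕ) < Cardinal.mk ℕ := by
    rw [Cardinal.mk_nat]
    exact Cardinal.mk_lt_aleph0_iff.2 (Finset.finite_toSet c).to_subtype
  obtain ⟨σ, hσ⟩ := Cardinal.extend_function_of_lt g hlt ⟨Equiv.refl ℕ⟩
  have hσ' : ∀ i ∈ c, σ i = (f i).1 := fun i hi => hσ ⟨i, Finset.mem_coe.2 hi⟩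
  refine ⟨perm_EXT σ fun i => (f i).2, ?_, ?_⟩
  · intro a
    obtain ⟨i, b⟩ := a
    simp [perm_EXT, fl]
  · intro i hi
    refine ⟨?_, ?_⟩
    · refine Prod.ext ?_ ?_
      · exact hσ' i hi
      · simp [perm_EXT]
    · refine Prod.ext ?_ ?_
      · exact hσ' i hi
      · simp [perm_EXT, fl]

end Pool.Agent.Helper65.IS
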