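import Pool.Agent.Helper65.IS.St

/-! # (I6) isoterms -/

set_option autoImplicit false

namespace Pool.Agent.Helper65.IS

open Equiv

theorem ren_inv {π : Perm Ltr} (h : Ren π) : Ren π⁻¹ := by
  intro a
  apply π.injective
  rw [h (π⁻¹ a)]
  simp

theorem map_inv_map (π : Perm Ltr) (u : List Ltr) : (u.map π).map (π⁻¹ : Perm Ltr) = u := by
  rw [List.map_map]
  have : ((π⁻¹ : Perm Ltr) ∘ π : Ltr → Ltr) = id := by
    funext a
    simp
  rw [this, List.map_id]

theorem map_map_inv (π : Perm Ltr) (u : List Ltr) : (u.map (π⁻¹ : Perm Ltr)).map π = u := by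
  rw [List.map_map]
  have : (π ∘ (π⁻¹ : Perm Ltr) : Ltr → Ltr) = id := by
    funext a
    simp
  rw [this, List.map_id]

theorem iso (hb : StBAS) : StISO := by
  obtain ⟨b1, -, -, -, -, -, -, b8, -, -, -⟩ := hb
  intro th w hF hw hiso
  have hinv : ∀ (π : Perm Ltr), Ren π → ∀ t u, th (t.map π) u → th t (u.map (π⁻¹ : Perm Ltr)) := by
    intro π hπ t u h
    have h1 := hF.subst _ _ (fun i => [(π⁻¹ : Perm Ltr) (i, false)]) (fun i => by simp) h
    rw [← b8 π⁻¹ (ren_inv hπ), ← b8 π⁻¹ (ren_inv hπ), map_inv_map] at h1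
    exact h1
  have hst : ∀ v, th (st w) v → v = st w := by
    intro v h
    have h1 := hF.star _ _ h
    rw [b1] at h1
    have h2 := hiso _ h1
    rw [← h2, b1]
  refine ⟨?_, ?_, ?_⟩
  · rintro s u ⟨π, hπ, rfl | rfl⟩ h
    · rw [← hiso _ (hinv π hπ _ _ h), map_map_inv]
    · rw [← hst _ (hinv π hπ _ _ h), map_map_inv]
  · rintro u v ⟨a, b, φ, hφ, h | h⟩ huv
    · have h1 := hF.ctx _ _ a b (hF.subst _ _ φ hφ huv)
      rw [← h] at h1
      exact ⟨a, b, φ, hφ, Or.inl (hiso _ h1).symm⟩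
    · have h1 := hF.ctx _ _ a b (hF.subst _ _ φ hφ huv)
      rw [← h] at h1
      exact ⟨a, b, φ, hφ, Or.inr (hst _ h1).symm⟩
  · rintro s ⟨π, hπ, rfl | rfl⟩
    · refine ⟨[], [], fun i => [(π⁻¹ : Perm Ltr) (i, false)], fun i => by simp, Or.inl ?_⟩
      rw [← b8 π⁻¹ (ren_inv hπ), map_inv_map]
      simp
    · refine ⟨[], [], fun i => [(π⁻¹ : Perm Ltr) (i, false)], fun i => by simp, Or.inr ?_⟩
      rw [← b8 π⁻¹ (ren_inv hπ), map_inv_map]
      simp

end Pool.Agent.Helper65.IS
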