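import Pool.Agent.Helper65.IS.St

/-!
# Module JOIN of project IS (MP_265e56_al)

If a fully invariant congruence contains the relations attached to `H1` and to `K`, then it contains the relation
attached to every `H2 ≤ H1 ⊔ K`.
-/

set_option autoImplicit false

namespace Pool.Agent.Helper65.IS

open Equiv

theorem join : StJOIN := by
  intro th w H1 H2 K hle hren r hr h1 h2 hw u v huv
  have hst : st w ≠ [] := by
    intro h
    apply hw
    simpa [st] using h
  have nemap : ∀ (x : List Ltr) (f : Ltr → Ltr), x ≠ [] → x.map f ≠ [] := by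
    intro x f hx h
    exact hx (List.map_eq_nil_iff.1 h)
  have key : ∀ h ∈ H1 ⊔ K, ∀ π : Perm Ltr, Ren π →
      r (w.map π) (w.map (π * h : Perm Ltr)) ∧
      r ((st w).map π) ((st w).map (π * h : Perm Ltr)) := by
    intro h hh
    rw [Subgroup.sup_eq_closure] at hh
    induction hh using Subgroup.closure_induction with
    | mem x hx =>
      intro π hπ
      rcases hx with hx | hx
      · exact ⟨h1 _ _ ⟨nemap _ _ hw, nemap _ _ hw, Or.inr (Or.inr ⟨π, hπ, x, hx, Or.inl ⟨rfl, rfl⟩⟩)⟩,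
          h1 _ _ ⟨nemap _ _ hst, nemap _ _ hst, Or.inr (Or.inr ⟨π, hπ, x, hx, Or.inr ⟨rfl, rfl⟩⟩)⟩⟩
      · exact ⟨h2 _ _ ⟨nemap _ _ hw, nemap _ _ hw, Or.inr (Or.inr ⟨π, hπ, x, hx, Or.inl ⟨rfl, rfl⟩⟩)⟩,
          h2 _ _ ⟨nemap _ _ hst, nemap _ _ hst, Or.inr (Or.inr ⟨π, hπ, x, hx, Or.inr ⟨rfl, rfl⟩⟩)⟩⟩
    | one =>
      intro π hπ
      rw [mul_one]
      exact ⟨hr.refl _ (nemap _ _ hw), hr.refl _ (nemap _ _ hst)⟩
    | mul x y hx hy ihx ihy =>
      intro π hπ
      have hxr : Ren x := hren x (by rw [Subgroup.sup_eq_closure]; exact hx)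
      have hπx : Ren (π * x) := by
        intro a
        rw [Perm.mul_apply, Perm.mul_apply, hxr a, hπ]
      have e1 := ihx π hπ
      have e2 := ihy (π * x) hπx
      rw [mul_assoc] at e2
      exact ⟨hr.trans _ _ _ e1.1 e2.1, hr.trans _ _ _ e1.2 e2.2⟩
    | inv x hx ih =>
      intro π hπ
      have hxr : Ren x⁻¹ := hren x⁻¹ (by rw [Subgroup.sup_eq_closure]; exact inv_mem hx)
      have hπx : Ren (π * x⁻¹) := by
        intro a
        rw [Perm.mul_apply, Perm.mul_apply, hxr a, hπ]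
      have e := ih (π * x⁻¹) hπx
      rw [inv_mul_cancel_right] at e
      exact ⟨hr.symm _ _ e.1, hr.symm _ _ e.2⟩
  obtain ⟨hu, hv, h⟩ := huv
  rcases h with h | h | h
  · exact h1 u v ⟨hu, hv, Or.inl h⟩
  · exact h1 u v ⟨hu, hv, Or.inr (Or.inl h)⟩
  · obtain ⟨π, hπ, g, hg, h'⟩ := h
    have hk := key g (hle hg) π hπ
    rcases h' with ⟨rfl, rfl⟩ | ⟨rfl, rfl⟩
    · exact hk.1
    · exact hk.2

end Pool.Agent.Helper65.IS
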