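import Pool.Agent.Helper65.IS.St

set_option autoImplicit false

namespace Pool.Agent.Helper65.IS

open Equiv

namespace Lfour

lemma sub_cons (φ : ℕ → List Ltr) (a : Ltr) (u : List Ltr) :
    sub φ (a :: u) = (if a.2 then st (φ a.1) else φ a.1) ++ sub φ u := rfl

lemma st_length (u : List Ltr) : (st u).length = u.length := by
  simp [st]

lemma piece_length (φ : ℕ → List Ltr) (a : Ltr) :
    (if a.2 then st (φ a.1) else φ a.1).length = (φ a.1).length := by
  split_ifs
  · exact st_length _
  · rfl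

lemma mem_con {u : List Ltr} {i : ℕ} : i ∈ con u ↔ ∃ a ∈ u, a.1 = i := by
  simp only [con, List.mem_toFinset, List.mem_map]

lemma len_le (φ : ℕ → List Ltr) (hφ : ∀ i, φ i ≠ []) (u : List Ltr) :
    u.length ≤ (sub φ u).length := by
  induction u with
  | nil => simp
  | cons a u ih =>
    rw [sub_cons, List.length_append, piece_length, List.length_cons]
    have := List.length_pos_iff.2 (hφ a.1)
    omega

lemma len_one (φ : ℕ → List Ltr) (hφ : ∀ i, φ i ≠ []) (u : List Ltr)
    (h : (sub φ u).length ≤ u.length) : ∀ i ∈ con u, (φ i).length = 1 := by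
  induction u with
  | nil => intro i hi; simp [con] at hi
  | cons a u ih =>
    rw [sub_cons, List.length_append, piece_length, List.length_cons] at h
    have h1 := List.length_pos_iff.2 (hφ a.1)
    have h2 := len_le φ hφ u
    intro i hi
    obtain ⟨x, hx, rfl⟩ := mem_con.1 hi
    rcases List.mem_cons.1 hx with rfl | hx
    · omega
    · exact ih (by omega) _ (mem_con.2 ⟨x, hx, rfl⟩)

/-- the first letter of the image -/
def hd (φ : ℕ → List Ltr) (i : ℕ) : Ltr := (φ i).headD (0, false)

lemma eq_hd (φ : ℕ → List Ltr) (i : ℕ) (h : (φ i).length = 1) : φ i = [hd φ i] := by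
  obtain ⟨x, hx⟩ := List.length_eq_one_iff.1 h
  simp [hd, hx]

lemma st_single (x : Ltr) : st [x] = [fl x] := rfl

lemma con_sub (φ : ℕ → List Ltr) (u : List Ltr) (h : ∀ i ∈ con u, (φ i).length = 1) :
    con (sub φ u) ⊆ (con u).image (fun i => (hd φ i).1) := by
  induction u with
  | nil => intro i hi; simp [sub, con] at hi
  | cons a u ih =>
    have ih' := ih (fun i hi => h i (by
      obtain ⟨x, hx, rfl⟩ := mem_con.1 hi
      exact mem_con.2 ⟨x, List.mem_cons_of_mem _ hx, rfl⟩))
    intro i hi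
    obtain ⟨x, hx, rfl⟩ := mem_con.1 hi
    rw [sub_cons] at hx
    rcases List.mem_append.1 hx with hx | hx
    · have ha : a.1 ∈ con (a :: u) := mem_con.2 ⟨a, by simp, rfl⟩
      refine Finset.mem_image.2 ⟨a.1, ha, ?_⟩
      rw [eq_hd φ a.1 (h _ ha), st_single] at hx
      split_ifs at hx
      · rw [List.mem_singleton.1 hx]; rfl
      · rw [List.mem_singleton.1 hx]
    · obtain ⟨j, hj, hj2⟩ := Finset.mem_image.1 (ih' (mem_con.2 ⟨x, hx, rfl⟩))
      obtain ⟨y, hy, rfl⟩ := mem_con.1 hj
      exact Finset.mem_image.2 ⟨y.1, mem_con.2 ⟨y, List.mem_cons_of_mem _ hy, rfl⟩, hj2⟩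

lemma ren_fst (π : Perm Ltr) (h : Ren π) (a : Ltr) : (π a).1 = (π (a.1, false)).1 := by
  obtain ⟨i, b⟩ := a
  cases b
  · rfl
  · have := h (i, false)
    simp only [fl, Bool.not_false] at this
    rw [this]

lemma con_map (π : Perm Ltr) (h : Ren π) (u : List Ltr) :
    con (u.map π) ⊆ (con u).image (fun i => (π (i, false)).1) := by
  intro i hi
  obtain ⟨x, hx, rfl⟩ := mem_con.1 hi
  obtain ⟨a, ha, rfl⟩ := List.mem_map.1 hx
  exact Finset.mem_image.2 ⟨a.1, mem_con.2 ⟨a, ha, rfl⟩, (ren_fst π h a).symm⟩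

lemma con_map_card (π : Perm Ltr) (h : Ren π) (u : List Ltr) :
    (con (u.map π)).card ≤ (con u).card :=
  (Finset.card_le_card (con_map π h u)).trans Finset.card_image_le

end Lfour

open Lfour

theorem lfour (hb : StBAS) (he : StEXT) : StL4 := by
  obtain ⟨-, -, -, hsub, -, -, -, -, -, hcon, -⟩ := hb
  intro w s a b φ _ hs hφ hN
  have hsl : s.length = w.length := by
    obtain ⟨π, -, h | h⟩ := hs
    · simp [h]
    · simp [h, st_length]
  have hsc : (con s).card ≤ (con w).card := by
    obtain ⟨π, hπ, h | h⟩ := hs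
    · rw [h]; exact con_map_card π hπ w
    · rw [h, ← hcon w]; exact con_map_card π hπ (st w)
  obtain ⟨a', b', ψ, hψ, hN⟩ := hN
  obtain ⟨w', hwl, hwc, hw'⟩ : ∃ w' : List Ltr, w'.length = w.length ∧ con w' = con w ∧
      w' = a' ++ sub ψ (a ++ sub φ s ++ b) ++ b' := by
    rcases hN with h | h
    · exact ⟨w, rfl, rfl, h⟩
    · exact ⟨st w, st_length w, hcon w, h⟩
  have hl1 := congrArg List.length hw'
  have hl2 := len_le ψ hψ (a ++ sub φ s ++ b)
  have hl3 := len_le φ hφ s
  simp only [List.length_append] at hl1 hl2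
  have ha : a = [] := List.length_eq_zero_iff.1 (by omega)
  have hb' : b = [] := List.length_eq_zero_iff.1 (by omega)
  have ha2 : a' = [] := List.length_eq_zero_iff.1 (by omega)
  have hb2 : b' = [] := List.length_eq_zero_iff.1 (by omega)
  have hf : (sub φ s).length ≤ s.length := by omega
  subst ha hb' ha2 hb2
  simp only [List.nil_append, List.append_nil] at hw' hl1 hl2
  have hg : (sub ψ (sub φ s)).length ≤ (sub φ s).length := by
    have := congrArg List.length hw'
    omega
  refine ⟨rfl, rfl, ?_⟩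
  have h1 := len_one φ hφ s hf
  have h2 := len_one ψ hψ _ hg
  have c1 := Finset.card_le_card (con_sub φ s h1)
  have c2 := (Finset.card_le_card (con_sub ψ _ h2)).trans Finset.card_image_le
  rw [← hw', hwc] at c2
  have c3 : ((con s).image (fun i => (hd φ i).1)).card = (con s).card :=
    le_antisymm Finset.card_image_le (hsc.trans (c2.trans c1))
  have hinj := Finset.card_image_iff.1 c3
  obtain ⟨π, hπ, hπ2⟩ := he (con s) (hd φ) (fun i hi j hj h => hinj hi hj h)
  refine ⟨π, hπ, fun t ht => ?_⟩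
  induction t with
  | nil => rfl
  | cons x t ih =>
    rw [sub_cons, List.map_cons, ih (fun i hi => ht i (by
      obtain ⟨y, hy, rfl⟩ := mem_con.1 hi
      exact mem_con.2 ⟨y, List.mem_cons_of_mem _ hy, rfl⟩))]
    have hx : x.1 ∈ con s := ht _ (mem_con.2 ⟨x, by simp, rfl⟩)
    rw [eq_hd φ x.1 (h1 _ hx), st_single]
    obtain ⟨e1, e2⟩ := hπ2 _ hx
    obtain ⟨i, c⟩ := x
    cases c
    · simp only [Bool.false_eq_true, if_false, e1, List.singleton_append]
    · simp only [if_true, e2, List.singleton_append]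

end Pool.Agent.Helper65.IS
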