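import Pool.Agent.Helper65.IS.St

set_option autoImplicit false

/-! # Module MEET: intersections of the congruences `rho th w H` -/

namespace Pool.Agent.Helper65.IS

open Equiv

private theorem meet_ren_inv {π : Perm Ltr} (h : Ren π) : Ren π⁻¹ := by
  intro a
  apply π.injective
  rw [h, ← Perm.mul_apply, ← Perm.mul_apply, mul_inv_cancel, Perm.one_apply, Perm.one_apply]

private theorem meet_ren_mul {π ρ : Perm Ltr} (h : Ren π) (h' : Ren ρ) : Ren (π * ρ) := by
  intro a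
  rw [Perm.mul_apply, Perm.mul_apply, h', h]

private theorem meet_ing_mem {c : Finset ℕ} {h : Perm Ltr} (hh : InG c h) {a : Ltr}
    (ha : a.1 ∈ c) : (h a).1 ∈ c := by
  by_contra hc
  have h1 := hh.2 (h a) hc
  have h2 := h.injective h1
  rw [h2] at hc
  exact hc ha

private theorem meet_fl_cases (a b : Ltr) (h : a.1 = b.1) : a = b ∨ a = fl b := by
  obtain ⟨i, x⟩ := a
  obtain ⟨j, y⟩ := b
  simp only at h
  subst h
  cases x <;> cases y <;> simp [fl]

private theorem meet_agree {s : List Ltr} {π π' : Perm Ltr} (hp : Ren π) (hp' : Ren π')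
    (h : s.map π = s.map π') {a : Ltr} (ha : a.1 ∈ con s) : π a = π' a := by
  have hl : ∀ b ∈ s, π b = π' b := List.map_inj_left.1 h
  rw [con, List.mem_toFinset, List.mem_map] at ha
  obtain ⟨b, hb, hba⟩ := ha
  rcases meet_fl_cases a b hba.symm with h1 | h1
  · rw [h1, hl b hb]
  · rw [h1, hp, hp', hl b hb]

private theorem meet_eq {c : Finset ℕ} {s : List Ltr} {π π' h k : Perm Ltr} (hs : con s = c)
    (hp : Ren π) (hp' : Ren π') (hh : InG c h) (hk : InG c k) (h1 : s.map π = s.map π')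
    (h2 : s.map (π * h : Perm Ltr) = s.map (π' * k : Perm Ltr)) : h = k := by
  subst hs
  apply Equiv.ext
  intro a
  by_cases ha : a.1 ∈ con s
  · have e1 := meet_agree (meet_ren_mul hp hh.1) (meet_ren_mul hp' hk.1) h2 ha
    rw [Perm.mul_apply, Perm.mul_apply, meet_agree hp hp' h1 (meet_ing_mem hh ha)] at e1
    exact π'.injective e1
  · rw [hh.2 a ha, hk.2 a ha]

private theorem meet_mixed (ha : StADJ) {w : List Ltr} {H K : Subgroup (Perm Ltr)}
    (hH : Adm w H) (hK : Adm w K) {u v : List Ltr} {π π' h k : Perm Ltr} (hp : Ren π)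
    (hp' : Ren π') (hh : h ∈ H) (hk : k ∈ K) (hu : u = w.map π) (hv : v = w.map (π * h : Perm Ltr))
    (hu' : u = (st w).map π') (hv' : v = (st w).map (π' * k : Perm Ltr)) : h ∈ K := by
  have e0 : w.map π = (st w).map π' := hu.symm.trans hu'
  have e1 : st w = w.map (π'⁻¹ * π : Perm Ltr) := by
    have e2 : (w.map π).map (π'⁻¹ : Perm Ltr) = ((st w).map π').map (π'⁻¹ : Perm Ltr) := by rw [e0]
    rw [List.map_map, List.map_map] at e2
    have e3 : ((π'⁻¹ : Perm Ltr) : Ltr → Ltr) ∘ (π' : Ltr → Ltr) = id := by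
      funext a
      rw [Function.comp_apply, ← Perm.mul_apply, inv_mul_cancel, Perm.one_apply, id]
    rw [e3, List.map_id] at e2
    rw [← e2]
    rfl
  obtain ⟨om, ho1, -, ho3, -⟩ := ha w _ (meet_ren_mul (meet_ren_inv hp') hp) e1
  have e4 : ∀ σ : Perm Ltr, (st w).map σ = w.map (σ * om : Perm Ltr) := by
    intro σ
    rw [ho3, List.map_map]
    rfl
  have hk' : om⁻¹ * k * om ∈ K := hK.2 om ho1 ho3 k hk
  have e5 : h = om⁻¹ * k * om := by
    refine meet_eq (c := con w) (s := w) (π := π) (π' := π' * om) rfl hp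
      (meet_ren_mul hp' ho1.1) (hH.1 h hh) (hK.1 _ hk') ?_ ?_
    · rw [← e4, e0]
    · rw [← hv, hv', e4]
      congr 1
      group
  rw [e5]
  exact hk'

private theorem meet_rh (hb : StBAS) (ha : StADJ) {w : List Ltr} {H K : Subgroup (Perm Ltr)}
    (hH : Adm w H) (hK : Adm w K) {u v : List Ltr} (h1 : RH w H u v) (h2 : RH w K u v) :
    RH w (H ⊓ K) u v := by
  obtain ⟨π, hp, h, hh, h1⟩ := h1
  obtain ⟨π', hp', k, hk, h2⟩ := h2
  have hcon : con (st w) = con w := hb.2.2.2.2.2.2.2.2.2.1 w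
  rcases h1 with ⟨hu, hv⟩ | ⟨hu, hv⟩ <;> rcases h2 with ⟨hu', hv'⟩ | ⟨hu', hv'⟩
  · have e : h = k := meet_eq rfl hp hp' (hH.1 h hh) (hK.1 k hk) (hu.symm.trans hu')
      (hv.symm.trans hv')
    exact ⟨π, hp, h, ⟨hh, by rw [e]; exact hk⟩, Or.inl ⟨hu, hv⟩⟩
  · exact ⟨π, hp, h, ⟨hh, meet_mixed ha hH hK hp hp' hh hk hu hv hu' hv'⟩, Or.inl ⟨hu, hv⟩⟩
  · exact ⟨π', hp', k, ⟨meet_mixed ha hK hH hp' hp hk hh hu' hv' hu hv, hk⟩, Or.inl ⟨hu', hv'⟩⟩
  · have e : h = k := meet_eq hcon hp hp' (hH.1 h hh) (hK.1 k hk) (hu.symm.trans hu')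
      (hv.symm.trans hv')
    exact ⟨π, hp, h, ⟨hh, by rw [e]; exact hk⟩, Or.inr ⟨hu, hv⟩⟩

theorem meet (hb : StBAS) (ha : StADJ) (_hi : StISO) (_hr : StRH) : StMEET := by
  intro th w H K _ _ _ hH hK u v h1 h2
  obtain ⟨hu, hv, h1⟩ := h1
  obtain ⟨-, -, h2⟩ := h2
  refine ⟨hu, hv, ?_⟩
  rcases h1 with h1 | h1 | h1
  · exact Or.inl h1
  · exact Or.inr (Or.inl h1)
  · rcases h2 with h2 | h2 | h2
    · exact Or.inl h2
    · exact Or.inr (Or.inl h2)
    · exact Or.inr (Or.inr (meet_rh hb ha hH hK h1 h2))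

end Pool.Agent.Helper65.IS
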