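import Pool.Agent.Helper65.IS.St

set_option autoImplicit false

namespace Pool.Agent.Helper65.IS

open Equiv

section grp

variable {G : Type} [Group G]

private lemma conj_of_PEN {om x y : G} (h : om * x = y * om) : om⁻¹ * y * om = x := by
  rw [mul_assoc, ← h, ← mul_assoc, inv_mul_cancel, one_mul]

private def two_PEN (f : G) (hf : f * f = 1) : Subgroup G where
  carrier := {x | x = 1 ∨ x = f}
  mul_mem' := by
    intro a b ha hb
    rcases ha with ha | ha <;> rcases hb with hb | hb <;> rw [ha, hb] <;> simp [hf]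
  one_mem' := Or.inl rfl
  inv_mem' := by
    intro a ha
    rcases ha with ha | ha
    · left
      rw [ha, inv_one]
    · right
      rw [ha]
      exact inv_eq_of_mul_eq_one_left hf

private def three_PEN (c : G) (hc : c * c * c = 1) : Subgroup G where
  carrier := {x | x = 1 ∨ x = c ∨ x = c * c}
  mul_mem' := by
    have h1 : c * (c * c) = 1 := by rw [← mul_assoc, hc]
    intro a b ha hb
    rcases ha with ha | ha | ha <;> rcases hb with hb | hb | hb <;> rw [ha, hb] <;>
      simp [mul_assoc, h1]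
  one_mem' := Or.inl rfl
  inv_mem' := by
    have h1 : c * (c * c) = 1 := by rw [← mul_assoc, hc]
    intro a ha
    rcases ha with ha | ha | ha
    · left
      rw [ha, inv_one]
    · right; right
      rw [ha]
      exact inv_eq_of_mul_eq_one_left hc
    · right; left
      rw [ha]
      exact inv_eq_of_mul_eq_one_left h1

private def four_PEN (f g : G) (hf : f * f = 1) (hg : g * g = 1) (hfg : g * f = f * g) :
    Subgroup G where
  carrier := {x | x = 1 ∨ x = f ∨ x = g ∨ x = f * g}
  mul_mem' := by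
    have h1 : ∀ x, f * (f * x) = x := fun x => by rw [← mul_assoc, hf, one_mul]
    have h3 : ∀ x, g * (f * x) = f * (g * x) := fun x => by
      rw [← mul_assoc, hfg, mul_assoc]
    intro a b ha hb
    rcases ha with ha | ha | ha | ha <;> rcases hb with hb | hb | hb | hb <;> rw [ha, hb] <;>
      simp [mul_assoc, h1, h3, hf, hg, hfg]
  one_mem' := Or.inl rfl
  inv_mem' := by
    have h1 : f * g * (f * g) = 1 := by
      rw [mul_assoc, ← mul_assoc g f g, hfg, mul_assoc f g g, hg, mul_one, hf]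
    intro a ha
    rcases ha with ha | ha | ha | ha
    · left
      rw [ha, inv_one]
    · right; left
      rw [ha]
      exact inv_eq_of_mul_eq_one_left hf
    · right; right; left
      rw [ha]
      exact inv_eq_of_mul_eq_one_left hg
    · right; right; right
      rw [ha]
      exact inv_eq_of_mul_eq_one_left h1

private def Pent_PEN (om : G) (S : Subgroup G) : Prop :=
  ∃ H1 H2 K : Subgroup G, H2 ⊔ K ≤ S ∧ H1 ≤ H2 ∧ (∃ g ∈ H2, g ∉ H1) ∧
    H2 ⊓ K = ⊥ ∧ H2 ≤ H1 ⊔ K ∧ (∀ h ∈ H1, om⁻¹ * h * om ∈ H1) ∧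
    (∀ h ∈ H2, om⁻¹ * h * om ∈ H2) ∧ ∀ h ∈ K, om⁻¹ * h * om ∈ K

private lemma penA_PEN (om : G) (S : Subgroup G) (f g t : G) (hf : f * f = 1) (hg : g * g = 1)
    (ht : t * t = 1) (hfg : g * f = f * g) (hconj : t * f * t = g) (hne : f ≠ g)
    (h1 : t ≠ 1) (h2 : t ≠ f) (h3 : t ≠ g) (h4 : t ≠ f * g) (c1 : om * f = f * om)
    (c2 : om * g = g * om) (c3 : om * t = t * om) (sf : f ∈ S) (sg : g ∈ S) (stt : t ∈ S) :
    Pent_PEN om S := by
  have c4 : om * (f * g) = (f * g) * om := by
    rw [← mul_assoc, c1, mul_assoc, c2, mul_assoc]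
  have c0 : om * 1 = 1 * om := by rw [mul_one, one_mul]
  have hg1 : g ≠ 1 := by
    intro h
    apply hne
    have : f = t * g * t := by
      rw [← hconj, ← mul_assoc, ← mul_assoc, ht, one_mul, mul_assoc, ht, mul_one]
    rw [this, h, mul_one, ht]
  refine ⟨two_PEN f hf, four_PEN f g hf hg hfg, two_PEN t ht, ?_, ?_, ⟨g, ?_, ?_⟩, ?_, ?_, ?_, ?_, ?_⟩
  · refine sup_le ?_ ?_
    · rintro x (hx | hx | hx | hx)
      · rw [hx]; exact S.one_mem
      · rw [hx]; exact sf
      · rw [hx]; exact sg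
      · rw [hx]; exact S.mul_mem sf sg
    · rintro x (hx | hx)
      · rw [hx]; exact S.one_mem
      · rw [hx]; exact stt
  · rintro x (hx | hx)
    · exact Or.inl hx
    · exact Or.inr (Or.inl hx)
  · exact Or.inr (Or.inr (Or.inl rfl))
  · rintro (hx | hx)
    · exact hg1 hx
    · exact hne hx.symm
  · rw [eq_bot_iff]
    rintro x ⟨hx1, hx2⟩
    rcases hx2 with hx2 | hx2
    · exact Subgroup.mem_bot.2 hx2
    · exfalso
      rcases hx1 with hx | hx | hx | hx
      · exact h1 (hx2.symm.trans hx)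
      · exact h2 (hx2.symm.trans hx)
      · exact h3 (hx2.symm.trans hx)
      · exact h4 (hx2.symm.trans hx)
  · have mf : f ∈ two_PEN f hf ⊔ two_PEN t ht := Subgroup.mem_sup_left (Or.inr rfl)
    have mt : t ∈ two_PEN f hf ⊔ two_PEN t ht := Subgroup.mem_sup_right (Or.inr rfl)
    have mg : g ∈ two_PEN f hf ⊔ two_PEN t ht := by
      rw [← hconj]
      exact Subgroup.mul_mem _ (Subgroup.mul_mem _ mt mf) mt
    rintro x (hx | hx | hx | hx)
    · rw [hx]; exact Subgroup.one_mem _
    · rw [hx]; exact mf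
    · rw [hx]; exact mg
    · rw [hx]; exact Subgroup.mul_mem _ mf mg
  · rintro x (hx | hx)
    · left; rw [hx]; exact conj_of_PEN c0
    · right; rw [hx]; exact conj_of_PEN c1
  · rintro x (hx | hx | hx | hx)
    · left; rw [hx]; exact conj_of_PEN c0
    · right; left; rw [hx]; exact conj_of_PEN c1
    · right; right; left; rw [hx]; exact conj_of_PEN c2
    · right; right; right; rw [hx]; exact conj_of_PEN c4
  · rintro x (hx | hx)
    · left; rw [hx]; exact conj_of_PEN c0
    · right; rw [hx]; exact conj_of_PEN c3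

private lemma penB_PEN (om : G) (S : Subgroup G) (a b c : G) (ha : a * a = 1) (hb : b * b = 1)
    (hc : c * c * c = 1) (hab : b * a = a * b) (hconj : c * a * (c * c) = b) (hne : a ≠ b)
    (c1 : om * a = a * om) (c2 : om * b = (a * b) * om) (c3 : om * c = (c * c) * om)
    (sa : a ∈ S) (sc : c ∈ S) : Pent_PEN om S := by
  have hc' : c * (c * c) = 1 := by rw [← mul_assoc, hc]
  have sb : b ∈ S := by
    rw [← hconj]
    exact S.mul_mem (S.mul_mem sc sa) (S.mul_mem sc sc)
  have c4 : om * (a * b) = b * om := by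
    rw [← mul_assoc, c1, mul_assoc, c2, ← mul_assoc, ← mul_assoc, ha, one_mul]
  have c0 : om * 1 = 1 * om := by rw [mul_one, one_mul]
  have c5 : om * (c * c) = c * om := by
    rw [← mul_assoc, c3, mul_assoc, c3, ← mul_assoc, mul_assoc c c (c * c), hc', mul_one]
  have hb1 : b ≠ 1 := by
    intro h
    apply hne
    have : a = (c * c) * b * c := by
      rw [← hconj]
      calc a = (c * (c * c)) * a * (c * (c * c)) := by rw [hc', one_mul, mul_one]
        _ = c * c * (c * a * (c * c)) * c := by simp only [mul_assoc]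
    rw [this, h, mul_one, hc]
  have sq : ∀ x, (x = 1 ∨ x = a ∨ x = b ∨ x = a * b) → x * x = 1 := by
    rintro x (hx | hx | hx | hx) <;> rw [hx]
    · rw [one_mul]
    · exact ha
    · exact hb
    · rw [mul_assoc, ← mul_assoc b a b, hab, mul_assoc a b b, hb, mul_one, ha]
  have cu : ∀ x, (x = 1 ∨ x = c ∨ x = c * c) → x * x * x = 1 := by
    rintro x (hx | hx | hx) <;> rw [hx]
    · rw [one_mul, one_mul]
    · exact hc
    · calc c * c * (c * c) * (c * c) = (c * (c * c)) * (c * (c * c)) := by simp only [mul_assoc]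
        _ = 1 := by rw [hc', one_mul]
  refine ⟨two_PEN a ha, four_PEN a b ha hb hab, three_PEN c hc, ?_, ?_, ⟨b, ?_, ?_⟩, ?_, ?_, ?_, ?_, ?_⟩
  · refine sup_le ?_ ?_
    · rintro x (hx | hx | hx | hx)
      · rw [hx]; exact S.one_mem
      · rw [hx]; exact sa
      · rw [hx]; exact sb
      · rw [hx]; exact S.mul_mem sa sb
    · rintro x (hx | hx | hx)
      · rw [hx]; exact S.one_mem
      · rw [hx]; exact sc
      · rw [hx]; exact S.mul_mem sc sc
  · rintro x (hx | hx)
    · exact Or.inl hx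
    · exact Or.inr (Or.inl hx)
  · exact Or.inr (Or.inr (Or.inl rfl))
  · rintro (hx | hx)
    · exact hb1 hx
    · exact hne hx.symm
  · rw [eq_bot_iff]
    rintro x ⟨hx1, hx2⟩
    rw [Subgroup.mem_bot]
    have e1 := sq x hx1
    have e2 := cu x hx2
    rw [e1, one_mul] at e2
    exact e2
  · have ma : a ∈ two_PEN a ha ⊔ three_PEN c hc := Subgroup.mem_sup_left (Or.inr rfl)
    have mc : c ∈ two_PEN a ha ⊔ three_PEN c hc := Subgroup.mem_sup_right (Or.inr (Or.inl rfl))
    have mb : b ∈ two_PEN a ha ⊔ three_PEN c hc := by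
      rw [← hconj]
      exact Subgroup.mul_mem _ (Subgroup.mul_mem _ mc ma) (Subgroup.mul_mem _ mc mc)
    rintro x (hx | hx | hx | hx)
    · rw [hx]; exact Subgroup.one_mem _
    · rw [hx]; exact ma
    · rw [hx]; exact mb
    · rw [hx]; exact Subgroup.mul_mem _ ma mb
  · rintro x (hx | hx)
    · left; rw [hx]; exact conj_of_PEN c0
    · right; rw [hx]; exact conj_of_PEN c1
  · rintro x (hx | hx | hx | hx)
    · left; rw [hx]; exact conj_of_PEN c0
    · right; left; rw [hx]; exact conj_of_PEN c1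
    · right; right; right; rw [hx]; exact conj_of_PEN c4
    · right; right; left; rw [hx]; exact conj_of_PEN c2
  · rintro x (hx | hx | hx)
    · left; rw [hx]; exact conj_of_PEN c0
    · right; right; rw [hx]; exact conj_of_PEN c5
    · right; left; rw [hx]; exact conj_of_PEN c3

end grp

/-- the subgroup of renamings of the letters in `c` -/
private def GG_PEN (c : Finset ℕ) : Subgroup (Perm Ltr) where
  carrier := {π | InG c π}
  mul_mem' := by
    intro a b ha hb
    refine ⟨fun x => ?_, fun x hx => ?_⟩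
    · rw [Perm.mul_apply, Perm.mul_apply, hb.1, ha.1]
    · rw [Perm.mul_apply, hb.2 x hx, ha.2 x hx]
  one_mem' := ⟨fun _ => rfl, fun _ _ => rfl⟩
  inv_mem' := by
    intro a ha
    refine ⟨fun x => ?_, fun x hx => ?_⟩
    · rw [Perm.inv_eq_iff_eq, ha.1]
      simp
    · rw [Perm.inv_eq_iff_eq, ha.2 x hx]

private lemma fl_fl_PEN (a : Ltr) : fl (fl a) = a := by
  simp [fl]

/-- letter `g x`, or its star -/
private def lt_PEN {m : ℕ} (g : Fin m → Ltr) (x : Fin m × Bool) : Ltr :=
  if x.2 then fl (g x.1) else g x.1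

private lemma lt_fst_PEN {m : ℕ} (g : Fin m → Ltr) (x : Fin m × Bool) :
    (lt_PEN g x).1 = (g x.1).1 := by
  unfold lt_PEN
  split_ifs <;> rfl

private lemma lt_inj_PEN {m : ℕ} (g : Fin m → Ltr) (hg : ∀ x y, (g x).1 = (g y).1 → x = y) :
    Function.Injective (lt_PEN g) := by
  rintro ⟨x, b⟩ ⟨y, b'⟩ h
  have h1 : (lt_PEN g (x, b)).1 = (lt_PEN g (y, b')).1 := by rw [h]
  rw [lt_fst_PEN, lt_fst_PEN] at h1
  have h2 : x = y := hg x y h1
  subst h2
  have h3 : (lt_PEN g (x, b)).2 = (lt_PEN g (x, b')).2 := by rw [h]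
  cases b <;> cases b' <;> simp [lt_PEN, fl] at h3 ⊢

private lemma lt_fl_PEN {m : ℕ} (g : Fin m → Ltr) (x : Fin m × Bool) :
    lt_PEN g (x.1, !x.2) = fl (lt_PEN g x) := by
  obtain ⟨x, b⟩ := x
  cases b <;> simp [lt_PEN, fl_fl_PEN]

private lemma inG_PEN {m : ℕ} (c : Finset ℕ) (ι : (Fin m × Bool) ↪ Ltr)
    (hι : ∀ x, ι (x.1, !x.2) = fl (ι x)) (hc : ∀ x, (ι x).1 ∈ c) (p : Perm (Fin m × Bool))
    (hp : ∀ x, p (x.1, !x.2) = ((p x).1, !(p x).2)) :
    Perm.viaEmbeddingHom ι p ∈ GG_PEN c := by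
  rw [Perm.viaEmbeddingHom_apply]
  refine ⟨fun a => ?_, fun a ha => ?_⟩
  · by_cases h : a ∈ Set.range ι
    · obtain ⟨x, rfl⟩ := h
      rw [← hι, Perm.viaEmbedding_apply, Perm.viaEmbedding_apply, hp, hι]
    · have h' : fl a ∉ Set.range ι := by
        rintro ⟨x, hx⟩
        apply h
        refine ⟨(x.1, !x.2), ?_⟩
        rw [hι, hx, fl_fl_PEN]
      rw [Perm.viaEmbedding_apply_of_notMem _ _ _ h, Perm.viaEmbedding_apply_of_notMem _ _ _ h']
  · apply Perm.viaEmbedding_apply_of_notMem
    rintro ⟨x, hx⟩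
    apply ha
    rw [← hx]
    exact hc x

private lemma comm_PEN {m : ℕ} (ι : (Fin m × Bool) ↪ Ltr) (om : Perm Ltr) (hom : om * om = 1)
    (om₀ : Perm (Fin m × Bool)) (h0 : ∀ x, om (ι x) = ι (om₀ x)) (p q : Perm (Fin m × Bool))
    (h : om₀ * p = q * om₀) :
    om * Perm.viaEmbeddingHom ι p = Perm.viaEmbeddingHom ι q * om := by
  rw [Perm.viaEmbeddingHom_apply, Perm.viaEmbeddingHom_apply]
  ext1 a
  rw [Perm.mul_apply, Perm.mul_apply]
  by_cases ha : a ∈ Set.range ι
  · obtain ⟨x, rfl⟩ := ha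
    rw [Perm.viaEmbedding_apply, h0, h0, Perm.viaEmbedding_apply]
    have := congrArg (fun r : Perm (Fin m × Bool) => r x) h
    simp only [Perm.mul_apply] at this
    rw [this]
  · have h' : om a ∉ Set.range ι := by
      rintro ⟨x, hx⟩
      apply ha
      refine ⟨om₀ x, ?_⟩
      rw [← h0, hx, ← Perm.mul_apply, hom, Perm.one_apply]
    rw [Perm.viaEmbedding_apply_of_notMem _ _ _ ha, Perm.viaEmbedding_apply_of_notMem _ _ _ h']

private lemma finA_PEN {m : ℕ} (c : Finset ℕ) (ι : (Fin m × Bool) ↪ Ltr)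
    (hι : ∀ x, ι (x.1, !x.2) = fl (ι x)) (hc : ∀ x, (ι x).1 ∈ c) (om : Perm Ltr)
    (hom : om * om = 1) (om₀ : Perm (Fin m × Bool)) (h0 : ∀ x, om (ι x) = ι (om₀ x))
    (f g t : Perm (Fin m × Bool)) (hf : f * f = 1) (hg : g * g = 1)
    (ht : t * t = 1) (hfg : g * f = f * g) (hconj : t * f * t = g) (hne : f ≠ g)
    (h1 : t ≠ 1) (h2 : t ≠ f) (h3 : t ≠ g) (h4 : t ≠ f * g) (c1 : om₀ * f = f * om₀)
    (c2 : om₀ * g = g * om₀) (c3 : om₀ * t = t * om₀)
    (sf : ∀ x, f (x.1, !x.2) = ((f x).1, !(f x).2)) (sg : ∀ x, g (x.1, !x.2) = ((g x).1, !(g x).2))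
    (stt : ∀ x, t (x.1, !x.2) = ((t x).1, !(t x).2)) : Pent_PEN om (GG_PEN c) := by
  have inj := Perm.viaEmbeddingHom_injective ι
  refine penA_PEN om (GG_PEN c) (Perm.viaEmbeddingHom ι f) (Perm.viaEmbeddingHom ι g)
    (Perm.viaEmbeddingHom ι t) ?_ ?_ ?_ ?_ ?_ ?_ ?_ ?_ ?_ ?_ ?_ ?_ ?_ ?_ ?_ ?_
  · rw [← map_mul, hf, map_one]
  · rw [← map_mul, hg, map_one]
  · rw [← map_mul, ht, map_one]
  · rw [← map_mul, ← map_mul, hfg]
  · rw [← map_mul, ← map_mul, hconj]
  · exact fun h => hne (inj h)
  · exact fun h => h1 (inj (h.trans (map_one _).symm))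
  · exact fun h => h2 (inj h)
  · exact fun h => h3 (inj h)
  · exact fun h => h4 (inj (h.trans (map_mul _ _ _).symm))
  · exact comm_PEN ι om hom om₀ h0 _ _ c1
  · exact comm_PEN ι om hom om₀ h0 _ _ c2
  · exact comm_PEN ι om hom om₀ h0 _ _ c3
  · exact inG_PEN c ι hι hc f sf
  · exact inG_PEN c ι hι hc g sg
  · exact inG_PEN c ι hι hc t stt

private lemma finB_PEN {m : ℕ} (c : Finset ℕ) (ι : (Fin m × Bool) ↪ Ltr)
    (hι : ∀ x, ι (x.1, !x.2) = fl (ι x)) (hc : ∀ x, (ι x).1 ∈ c) (om : Perm Ltr)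
    (hom : om * om = 1) (om₀ : Perm (Fin m × Bool)) (h0 : ∀ x, om (ι x) = ι (om₀ x))
    (a b d : Perm (Fin m × Bool)) (ha : a * a = 1) (hb : b * b = 1)
    (hd : d * d * d = 1) (hab : b * a = a * b) (hconj : d * a * (d * d) = b) (hne : a ≠ b)
    (c1 : om₀ * a = a * om₀) (c2 : om₀ * b = (a * b) * om₀) (c3 : om₀ * d = (d * d) * om₀)
    (sa : ∀ x, a (x.1, !x.2) = ((a x).1, !(a x).2))
    (sd : ∀ x, d (x.1, !x.2) = ((d x).1, !(d x).2)) : Pent_PEN om (GG_PEN c) := by
  have inj := Perm.viaEmbeddingHom_injective ι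
  refine penB_PEN om (GG_PEN c) (Perm.viaEmbeddingHom ι a) (Perm.viaEmbeddingHom ι b)
    (Perm.viaEmbeddingHom ι d) ?_ ?_ ?_ ?_ ?_ ?_ ?_ ?_ ?_ ?_ ?_
  · rw [← map_mul, ha, map_one]
  · rw [← map_mul, hb, map_one]
  · rw [← map_mul, ← map_mul, hd, map_one]
  · rw [← map_mul, ← map_mul, hab]
  · rw [← map_mul, ← map_mul, ← map_mul, hconj]
  · exact fun h => hne (inj h)
  · exact comm_PEN ι om hom om₀ h0 _ _ c1
  · rw [← map_mul]
    exact comm_PEN ι om hom om₀ h0 _ _ c2
  · rw [← map_mul]
    exact comm_PEN ι om hom om₀ h0 _ _ c3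
  · exact inG_PEN c ι hι hc a sa
  · exact inG_PEN c ι hι hc d sd

/-! ### the finite permutations -/

private abbrev inv_PEN {m : ℕ} (f : Fin m × Bool → Fin m × Bool) (hf : ∀ x, f (f x) = x) :
    Perm (Fin m × Bool) := ⟨f, f, hf, hf⟩

private def f2_PEN : Perm (Fin 2 × Bool) :=
  inv_PEN (fun x => if x.1 = 0 then (x.1, !x.2) else x) (by decide)

private def g2_PEN : Perm (Fin 2 × Bool) :=
  inv_PEN (fun x => if x.1 = 0 then x else (x.1, !x.2)) (by decide)

private def t2_PEN : Perm (Fin 2 × Bool) :=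
  inv_PEN (fun x => if x.1 = 0 then (1, x.2) else (0, x.2)) (by decide)

private def o2_PEN (e : Bool) : Perm (Fin 2 × Bool) :=
  inv_PEN (fun x => (x.1, xor x.2 e)) (by revert e; decide)

private def f4_PEN : Perm (Fin 4 × Bool) :=
  inv_PEN (fun x => if x.1 = 0 ∨ x.1 = 1 then (x.1, !x.2) else x) (by decide)

private def g4_PEN : Perm (Fin 4 × Bool) :=
  inv_PEN (fun x => if x.1 = 0 ∨ x.1 = 1 then x else (x.1, !x.2)) (by decide)

private def t4_PEN : Perm (Fin 4 × Bool) :=
  inv_PEN (fun x => (x.1 + 2, x.2)) (by decide)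

private def o4_PEN : Perm (Fin 4 × Bool) :=
  inv_PEN (fun x => if x.1 = 0 then (1, x.2) else if x.1 = 1 then (0, x.2) else
    if x.1 = 2 then (3, x.2) else (2, x.2)) (by decide)

private def a3_PEN : Perm (Fin 3 × Bool) :=
  inv_PEN (fun x => if x.1 = 2 then x else (x.1, !x.2)) (by decide)

private def b3_PEN : Perm (Fin 3 × Bool) :=
  inv_PEN (fun x => if x.1 = 0 then x else (x.1, !x.2)) (by decide)

private def o3_PEN (e : Bool) : Perm (Fin 3 × Bool) :=
  inv_PEN (fun x => if x.1 = 0 then (1, x.2) else if x.1 = 1 then (0, x.2) else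
    (2, xor x.2 e)) (by revert e; decide)

private def d3_PEN (e : Bool) : Perm (Fin 3 × Bool) :=
  ⟨fun x => if x.1 = 0 then (1, xor x.2 e) else if x.1 = 1 then (2, x.2) else (0, xor x.2 e),
    fun x => if x.1 = 0 then (2, xor x.2 e) else if x.1 = 1 then (0, xor x.2 e) else (1, x.2),
    by intro x; revert x e; decide, by intro x; revert x e; decide⟩

private lemma q1_PEN : ∀ e, o2_PEN e * f2_PEN = f2_PEN * o2_PEN e := by decide
private lemma q2_PEN : ∀ e, o2_PEN e * g2_PEN = g2_PEN * o2_PEN e := by decide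
private lemma q3_PEN : ∀ e, o2_PEN e * t2_PEN = t2_PEN * o2_PEN e := by decide
private lemma q4_PEN : ∀ e, o3_PEN e * a3_PEN = a3_PEN * o3_PEN e := by decide
private lemma q5_PEN : ∀ e, o3_PEN e * b3_PEN = (a3_PEN * b3_PEN) * o3_PEN e := by decide
private lemma q6_PEN : ∀ e, o3_PEN e * d3_PEN e = (d3_PEN e * d3_PEN e) * o3_PEN e := by decide
private lemma q7_PEN : ∀ e, d3_PEN e * d3_PEN e * d3_PEN e = 1 := by decide
private lemma q8_PEN : ∀ e, d3_PEN e * a3_PEN * (d3_PEN e * d3_PEN e) = b3_PEN := by decide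
private lemma q9_PEN : ∀ e x, d3_PEN e (x.1, !x.2) = ((d3_PEN e x).1, !(d3_PEN e x).2) := by
  decide

private lemma star_PEN {om : Perm Ltr} (hren : ∀ a, om (fl a) = fl (om a)) {i j : ℕ} {e : Bool}
    (h : om (i, false) = (j, e)) : ∀ b, om (i, b) = (j, xor b e) := by
  intro b
  cases b
  · simpa using h
  · have := hren (i, false)
    rw [h] at this
    simpa [fl] using this

/-- two letters of the same type -/
private lemma case2_PEN (c : Finset ℕ) (om : Perm Ltr) (hom : om * om = 1)
    (hren : ∀ a, om (fl a) = fl (om a)) (i j : ℕ) (hi : i ∈ c) (hj : j ∈ c) (hij : i ≠ j)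
    (e : Bool) (h1 : om (i, false) = (i, e)) (h2 : om (j, false) = (j, e)) :
    Pent_PEN om (GG_PEN c) := by
  have hg : ∀ x y : Fin 2, ((![(i, false), (j, false)] : Fin 2 → Ltr) x).1 =
      ((![(i, false), (j, false)] : Fin 2 → Ltr) y).1 → x = y := by
    intro x y
    fin_cases x <;> fin_cases y <;> simp [hij, hij.symm]
  let ι : (Fin 2 × Bool) ↪ Ltr := ⟨lt_PEN ![(i, false), (j, false)], lt_inj_PEN _ hg⟩
  have h0 : ∀ x, om (ι x) = ι (o2_PEN e x) := by
    have k1 := star_PEN hren h1
    have k2 := star_PEN hren h2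
    rintro ⟨x, b⟩
    change om (lt_PEN ![(i, false), (j, false)] (x, b)) =
      lt_PEN ![(i, false), (j, false)] (x, xor b e)
    fin_cases x <;> cases b <;> cases e <;> simp [lt_PEN, fl, k1, k2]
  refine finA_PEN c ι (fun x => lt_fl_PEN _ x) ?_ om hom (o2_PEN e) h0 f2_PEN g2_PEN t2_PEN
    (by decide) (by decide) (by decide) (by decide) (by decide) (by decide) (by decide)
    (by decide) (by decide) (by decide) (q1_PEN e) (q2_PEN e) (q3_PEN e) (by decide) (by decide)
    (by decide)
  rintro ⟨x, b⟩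
  change (lt_PEN ![(i, false), (j, false)] (x, b)).1 ∈ c
  rw [lt_fst_PEN]
  fin_cases x
  · exact hi
  · exact hj

/-- two pairs of letters which are exchanged -/
private lemma case4_PEN (c : Finset ℕ) (om : Perm Ltr) (hom : om * om = 1)
    (hren : ∀ a, om (fl a) = fl (om a)) (i i' j j' : ℕ) (hi : i ∈ c) (hi' : i' ∈ c) (hj : j ∈ c)
    (hj' : j' ∈ c) (n1 : i ≠ i') (n2 : i ≠ j) (n3 : i ≠ j') (n4 : i' ≠ j) (n5 : i' ≠ j')
    (n6 : j ≠ j') (e e' : Bool) (h1 : om (i, false) = (i', e)) (h2 : om (j, false) = (j', e')) :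
    Pent_PEN om (GG_PEN c) := by
  have hg : ∀ x y : Fin 4, ((![(i, false), (i', e), (j, false), (j', e')] : Fin 4 → Ltr) x).1 =
      ((![(i, false), (i', e), (j, false), (j', e')] : Fin 4 → Ltr) y).1 → x = y := by
    intro x y
    fin_cases x <;> fin_cases y <;>
      simp [n1, n2, n3, n4, n5, n6, n1.symm, n2.symm, n3.symm, n4.symm, n5.symm, n6.symm]
  let ι : (Fin 4 × Bool) ↪ Ltr :=
    ⟨lt_PEN ![(i, false), (i', e), (j, false), (j', e')], lt_inj_PEN _ hg⟩
  have h0 : ∀ x, om (ι x) = ι (o4_PEN x) := by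
    have k1 := star_PEN hren h1
    have k2 := star_PEN hren h2
    have inv : ∀ a, om (om a) = a := fun a => by rw [← Perm.mul_apply, hom, Perm.one_apply]
    have k3 : ∀ b, om (i', b) = (i, xor b e) := by
      intro b
      have := inv (i, xor b e)
      rw [k1] at this
      simpa using this
    have k4 : ∀ b, om (j', b) = (j, xor b e') := by
      intro b
      have := inv (j, xor b e')
      rw [k2] at this
      simpa using this
    rintro ⟨x, b⟩
    fin_cases x
    · change om (lt_PEN ![(i, false), (i', e), (j, false), (j', e')] (0, b)) =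
        lt_PEN ![(i, false), (i', e), (j, false), (j', e')] (1, b)
      cases b <;> simp [lt_PEN, fl, k1]
    · change om (lt_PEN ![(i, false), (i', e), (j, false), (j', e')] (1, b)) =
        lt_PEN ![(i, false), (i', e), (j, false), (j', e')] (0, b)
      cases b <;> simp [lt_PEN, fl, k3]
    · change om (lt_PEN ![(i, false), (i', e), (j, false), (j', e')] (2, b)) =
        lt_PEN ![(i, false), (i', e), (j, false), (j', e')] (3, b)
      cases b <;> simp [lt_PEN, fl, k2]
    · change om (lt_PEN ![(i, false), (i', e), (j, false), (j', e')] (3, b)) =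
        lt_PEN ![(i, false), (i', e), (j, false), (j', e')] (2, b)
      cases b <;> simp [lt_PEN, fl, k4]
  refine finA_PEN c ι (fun x => lt_fl_PEN _ x) ?_ om hom o4_PEN h0 f4_PEN g4_PEN t4_PEN
    (by decide) (by decide) (by decide) (by decide) (by decide) (by decide) (by decide)
    (by decide) (by decide) (by decide) (by decide) (by decide) (by decide) (by decide)
    (by decide) (by decide)
  rintro ⟨x, b⟩
  change (lt_PEN ![(i, false), (i', e), (j, false), (j', e')] (x, b)).1 ∈ c
  rw [lt_fst_PEN]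
  fin_cases x
  · exact hi
  · exact hi'
  · exact hj
  · exact hj'

/-- a pair of letters which are exchanged, and a third letter -/
private lemma case3_PEN (c : Finset ℕ) (om : Perm Ltr) (hom : om * om = 1)
    (hren : ∀ a, om (fl a) = fl (om a)) (i i' k : ℕ) (hi : i ∈ c) (hi' : i' ∈ c) (hk : k ∈ c)
    (n1 : i ≠ i') (n2 : i ≠ k) (n3 : i' ≠ k) (e e' : Bool) (h1 : om (i, false) = (i', e))
    (h2 : om (k, false) = (k, e')) : Pent_PEN om (GG_PEN c) := by
  have hg : ∀ x y : Fin 3, ((![(i, false), (i', e), (k, false)] : Fin 3 → Ltr) x).1 =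
      ((![(i, false), (i', e), (k, false)] : Fin 3 → Ltr) y).1 → x = y := by
    intro x y
    fin_cases x <;> fin_cases y <;> simp [n1, n2, n3, n1.symm, n2.symm, n3.symm]
  let ι : (Fin 3 × Bool) ↪ Ltr := ⟨lt_PEN ![(i, false), (i', e), (k, false)], lt_inj_PEN _ hg⟩
  have h0 : ∀ x, om (ι x) = ι (o3_PEN e' x) := by
    have k1 := star_PEN hren h1
    have k2 := star_PEN hren h2
    have inv : ∀ a, om (om a) = a := fun a => by rw [← Perm.mul_apply, hom, Perm.one_apply]
    have k3 : ∀ b, om (i', b) = (i, xor b e) := by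
      intro b
      have := inv (i, xor b e)
      rw [k1] at this
      simpa using this
    rintro ⟨x, b⟩
    fin_cases x
    · change om (lt_PEN ![(i, false), (i', e), (k, false)] (0, b)) =
        lt_PEN ![(i, false), (i', e), (k, false)] (1, b)
      cases b <;> simp [lt_PEN, fl, k1]
    · change om (lt_PEN ![(i, false), (i', e), (k, false)] (1, b)) =
        lt_PEN ![(i, false), (i', e), (k, false)] (0, b)
      cases b <;> simp [lt_PEN, fl, k3]
    · change om (lt_PEN ![(i, false), (i', e), (k, false)] (2, b)) =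
        lt_PEN ![(i, false), (i', e), (k, false)] (2, xor b e')
      cases b <;> cases e' <;> simp [lt_PEN, fl, k2]
  refine finB_PEN c ι (fun x => lt_fl_PEN _ x) ?_ om hom (o3_PEN e') h0 a3_PEN b3_PEN (d3_PEN e')
    (by decide) (by decide) (q7_PEN e') (by decide) (q8_PEN e') (by decide) (q4_PEN e')
    (q5_PEN e') (q6_PEN e') (by decide) (q9_PEN e')
  rintro ⟨x, b⟩
  change (lt_PEN ![(i, false), (i', e), (k, false)] (x, b)).1 ∈ c
  rw [lt_fst_PEN]
  fin_cases x
  · exact hi
  · exact hi'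
  · exact hk

theorem pen : StPEN := by
  intro c om hG hom hcard
  have hren := hG.1
  have inv : ∀ a, om (om a) = a := fun a => by rw [← Perm.mul_apply, hom, Perm.one_apply]
  have main : Pent_PEN om (GG_PEN c) := by
    -- the index map
    have hs : ∀ i, om (i, false) = ((om (i, false)).1, (om (i, false)).2) := fun i => rfl
    have hmem : ∀ i ∈ c, (om (i, false)).1 ∈ c := by
      intro i hi
      by_contra h
      have h1 := hG.2 (om (i, false)) h
      rw [inv] at h1
      rw [← h1] at h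
      exact h hi
    have hback : ∀ i, om ((om (i, false)).1, false) = (i, (om (i, false)).2) := by
      intro i
      have k1 := star_PEN hren (hs i)
      have := inv (i, (om (i, false)).2)
      rw [k1] at this
      simpa using this
    by_cases h3 : 3 ≤ c.card
    · by_cases hmv : ∃ i ∈ c, (om (i, false)).1 ≠ i
      · obtain ⟨i, hi, hne⟩ := hmv
        set i' := (om (i, false)).1 with hi'
        have hi'c : i' ∈ c := hmem i hi
        by_cases h4 : ∃ j ∈ c, j ≠ i ∧ j ≠ i' ∧ (om (j, false)).1 ≠ j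
        · obtain ⟨j, hj, hji, hji', hjne⟩ := h4
          refine case4_PEN c om hom hren i i' j (om (j, false)).1 hi hi'c hj (hmem j hj)
            (Ne.symm hne) (Ne.symm hji) ?_ (Ne.symm hji') ?_ (Ne.symm hjne) _ _ (hs i) (hs j)
          · intro h
            have h5 := hback j
            rw [← h, hs i] at h5
            exact hji' (congrArg Prod.fst h5).symm
          · intro h
            have h5 := hback j
            have h6 := hback i
            rw [← h] at h5
            rw [← hi', h5] at h6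
            exact hji (congrArg Prod.fst h6)
        · push Not at h4
          have : ∃ k ∈ c, k ∉ ({i, i'} : Finset ℕ) := by
            apply Finset.exists_mem_notMem_of_card_lt_card
            exact lt_of_le_of_lt Finset.card_le_two (by omega)
          obtain ⟨k, hk, hk'⟩ := this
          simp only [Finset.mem_insert, Finset.mem_singleton, not_or] at hk'
          have h5 := h4 k hk hk'.1 hk'.2
          have h6 : om (k, false) = (k, (om (k, false)).2) := Prod.ext h5 rfl
          exact case3_PEN c om hom hren i i' k hi hi'c hk (Ne.symm hne) (Ne.symm hk'.1)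
            (Ne.symm hk'.2) _ _ (hs i) h6
      · push Not at hmv
        obtain ⟨x, hx, y, hy, z, hz, nxy, nxz, nyz⟩ := Finset.two_lt_card.1 (by omega : 2 < c.card)
        have ex : ∀ i ∈ c, om (i, false) = (i, (om (i, false)).2) := fun i hi =>
          Prod.ext (hmv i hi) rfl
        have pig : (om (x, false)).2 = (om (y, false)).2 ∨ (om (x, false)).2 = (om (z, false)).2 ∨
            (om (y, false)).2 = (om (z, false)).2 := by
          generalize (om (x, false)).2 = p
          generalize (om (y, false)).2 = q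
          generalize (om (z, false)).2 = r
          revert p q r
          decide
        rcases pig with h | h | h
        · exact case2_PEN c om hom hren x y hx hy nxy _ (ex x hx) (by rw [h]; exact ex y hy)
        · exact case2_PEN c om hom hren x z hx hz nxz _ (ex x hx) (by rw [h]; exact ex z hz)
        · exact case2_PEN c om hom hren y z hy hz nyz _ (ex y hy) (by rw [h]; exact ex z hz)
    · rcases hcard with h | ⟨h2, h⟩
      · exact absurd h h3
      · obtain ⟨x, hx, y, hy, nxy⟩ := Finset.one_lt_card.1 (by omega : 1 < c.card)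
        rcases h with h | h
        · exact case2_PEN c om hom hren x y hx hy nxy false (h (x, false) hx) (h (y, false) hy)
        · exact case2_PEN c om hom hren x y hx hy nxy true (h (x, false) hx) (h (y, false) hy)
  obtain ⟨H1, H2, K, p1, p2, p3, p4, p5, p6, p7, p8⟩ := main
  exact ⟨H1, H2, K, fun h hh => p1 hh, p2, p3, p4, p5, p6, p7, p8⟩

end Pool.Agent.Helper65.IS
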