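import Pool.Agent.Helper65.IS.St

set_option autoImplicit false

namespace Pool.Agent.Helper65.IS

open Equiv

namespace RHaux

theorem fl_fl (a : Ltr) : fl (fl a) = a := by
  obtain ⟨i, b⟩ := a; simp [fl]

theorem fl_fst (a : Ltr) : (fl a).1 = a.1 := rfl

theorem ren_mul {π ρ : Perm Ltr} (h1 : Ren π) (h2 : Ren ρ) : Ren (π * ρ) := by
  intro a
  rw [Perm.mul_apply, Perm.mul_apply, h2 a, h1]

theorem ren_inv {π : Perm Ltr} (h1 : Ren π) : Ren π⁻¹ := by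
  intro a
  apply π.injective
  have e : ∀ x, π (π⁻¹ x) = x := fun x => by
    rw [← Perm.mul_apply, mul_inv_cancel, Perm.one_apply]
  rw [h1, e, e]

theorem eq_or_fl {a b : Ltr} (h : a.1 = b.1) : b = a ∨ b = fl a := by
  obtain ⟨i, x⟩ := a
  obtain ⟨j, y⟩ := b
  simp only at h
  subst h
  cases x <;> cases y <;> simp [fl]

theorem mem_con {u : List Ltr} {i : ℕ} : i ∈ con u ↔ ∃ a ∈ u, a.1 = i := by
  simp [con]

theorem fst_ren {π : Perm Ltr} (h : Ren π) {a b : Ltr} (hab : a.1 = b.1) :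
    (π b).1 = (π a).1 := by
  rcases eq_or_fl hab with rfl | rfl
  · rfl
  · rw [h]; rfl

theorem mem_idx {c : Finset ℕ} {h : Perm Ltr} (hh : InG c h) {a : Ltr} (ha : a.1 ∈ c) :
    (h a).1 ∈ c := by
  by_contra hn
  have h1 := hh.2 (h a) hn
  have h2 := h.injective h1
  rw [h2] at hn
  exact hn ha

theorem inG_inv {c : Finset ℕ} {h : Perm Ltr} (hh : InG c h) : InG c h⁻¹ := by
  refine ⟨ren_inv hh.1, fun a ha => ?_⟩
  have := hh.2 a ha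
  rw [Perm.inv_eq_iff_eq]
  exact this.symm

theorem con_sub {t : List Ltr} {c : Finset ℕ} (hc : con t = c) {π h : Perm Ltr} (hπ : Ren π)
    (hh : InG c h) : con (t.map (π * h : Perm Ltr)) ⊆ con (t.map π) := by
  intro i hi
  rw [mem_con] at hi ⊢
  obtain ⟨a, ha, rfl⟩ := hi
  rw [List.mem_map] at ha
  obtain ⟨b, hb, rfl⟩ := ha
  have hbc : b.1 ∈ c := by rw [← hc, mem_con]; exact ⟨b, hb, rfl⟩
  have h1 := mem_idx hh hbc
  rw [← hc, mem_con] at h1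
  obtain ⟨a', ha', he⟩ := h1
  refine ⟨π a', List.mem_map_of_mem ha', ?_⟩
  rw [Perm.mul_apply]
  exact (fst_ren hπ he).symm

theorem con_eq {t : List Ltr} {c : Finset ℕ} (hc : con t = c) {π h : Perm Ltr} (hπ : Ren π)
    (hh : InG c h) : con (t.map π) = con (t.map (π * h : Perm Ltr)) := by
  apply Finset.Subset.antisymm
  · have := con_sub hc (ren_mul hπ hh.1) (inG_inv hh)
    rwa [mul_assoc, mul_inv_cancel, mul_one] at this
  · exact con_sub hc hπ hh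

theorem agree {t : List Ltr} {ρ σ : Perm Ltr} (hρ : Ren ρ) (hσ : Ren σ)
    (h : t.map ρ = t.map σ) {a : Ltr} (ha : a.1 ∈ con t) : ρ a = σ a := by
  rw [mem_con] at ha
  obtain ⟨b, hb, he⟩ := ha
  have h1 : ρ b = σ b := (List.map_inj_left.mp h) b hb
  rcases eq_or_fl he with rfl | rfl
  · exact h1
  · rw [hρ, hσ, h1]

theorem map_mul_right {t : List Ltr} {c : Finset ℕ} (hc : con t = c) {ρ σ h : Perm Ltr}
    (hρ : Ren ρ) (hσ : Ren σ) (e : t.map ρ = t.map σ) (hh : InG c h) :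
    t.map (ρ * h : Perm Ltr) = t.map (σ * h : Perm Ltr) := by
  apply List.map_congr_left
  intro a ha
  rw [Perm.mul_apply, Perm.mul_apply]
  apply agree hρ hσ e
  rw [hc]
  apply mem_idx hh
  rw [← hc, mem_con]
  exact ⟨a, ha, rfl⟩

theorem map_mul' (t : List Ltr) (π ρ : Perm Ltr) :
    t.map (π * ρ : Perm Ltr) = (t.map ρ).map π := by
  rw [List.map_map]
  rfl

/-- First form. -/
def F1 (w : List Ltr) (H : Subgroup (Perm Ltr)) (u v : List Ltr) : Prop :=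
  ∃ π, Ren π ∧ ∃ h ∈ H, u = w.map π ∧ v = w.map (π * h : Perm Ltr)

theorem toF1 (ha : StADJ) {w : List Ltr} {H : Subgroup (Perm Ltr)} (hA : Adm w H)
    {ρ : Perm Ltr} (hρ : Ren ρ) (e : st w = w.map ρ) {u v : List Ltr} (h : RH w H u v) :
    F1 w H u v := by
  obtain ⟨π, hπ, h, hh, h1 | h1⟩ := h
  · exact ⟨π, hπ, h, hh, h1.1, h1.2⟩
  · obtain ⟨om, ho, -, hw, -⟩ := ha w ρ hρ e
    refine ⟨π * om, ren_mul hπ ho.1, om⁻¹ * h * om, hA.2 om ho hw h hh, ?_, ?_⟩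
    · rw [h1.1, hw, map_mul']
    · rw [h1.2, hw, ← map_mul']
      congr 2
      group

theorem trans_aux {t : List Ltr} {c : Finset ℕ} (hc : con t = c) {H : Subgroup (Perm Ltr)}
    (hH : ∀ h ∈ H, InG c h) {π π' h h' : Perm Ltr} (hπ : Ren π) (hπ' : Ren π') (hh : h ∈ H)
    (hh' : h' ∈ H) (e : t.map (π * h : Perm Ltr) = t.map π') :
    t.map (π' * h' : Perm Ltr) = t.map (π * (h * h') : Perm Ltr) := by
  rw [← mul_assoc]
  exact (map_mul_right hc (ren_mul hπ (hH h hh).1) hπ' e (hH h' hh')).symm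

theorem solve {w s : List Ltr} {ρ σ : Perm Ltr} (e : s.map ρ = w.map σ) :
    s = w.map (ρ⁻¹ * σ : Perm Ltr) := by
  rw [map_mul', ← e, ← map_mul', inv_mul_cancel]
  simp

end RHaux

open RHaux

theorem rh (hb : StBAS) (ha : StADJ) : StRH := by
  obtain ⟨hss, -, -, -, -, -, -, -, hstm, hcon, -⟩ := hb
  intro w H hw hA
  have hcs : con (st w) = con w := hcon w
  refine ⟨?_, ?_, ?_, ?_, ?_, ?_⟩
  · rintro s ⟨π, hπ, rfl | rfl⟩
    · exact ⟨π, hπ, 1, H.one_mem, Or.inl ⟨rfl, by rw [mul_one]⟩⟩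
    · exact ⟨π, hπ, 1, H.one_mem, Or.inr ⟨rfl, by rw [mul_one]⟩⟩
  · rintro u v ⟨π, hπ, h, hh, ⟨rfl, rfl⟩ | ⟨rfl, rfl⟩⟩
    · exact ⟨⟨π, hπ, Or.inl rfl⟩, ⟨π * h, ren_mul hπ (hA.1 h hh).1, Or.inl rfl⟩,
        con_eq rfl hπ (hA.1 h hh)⟩
    · exact ⟨⟨π, hπ, Or.inr rfl⟩, ⟨π * h, ren_mul hπ (hA.1 h hh).1, Or.inr rfl⟩,
        con_eq hcs hπ (hA.1 h hh)⟩
  · rintro u v ⟨π, hπ, h, hh, ⟨rfl, rfl⟩ | ⟨rfl, rfl⟩⟩
    · refine ⟨π * h, ren_mul hπ (hA.1 h hh).1, h⁻¹, H.inv_mem hh, Or.inl ⟨rfl, ?_⟩⟩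
      rw [mul_inv_cancel_right]
    · refine ⟨π * h, ren_mul hπ (hA.1 h hh).1, h⁻¹, H.inv_mem hh, Or.inr ⟨rfl, ?_⟩⟩
      rw [mul_inv_cancel_right]
  · intro u v t h1 h2
    have key : ∀ ρ : Perm Ltr, Ren ρ → st w = w.map ρ → RH w H u t := by
      intro ρ hρ e
      obtain ⟨π, hπ, h, hh, hu, hv⟩ := toF1 ha hA hρ e h1
      obtain ⟨π', hπ', h', hh', hv', ht⟩ := toF1 ha hA hρ e h2
      refine ⟨π, hπ, h * h', H.mul_mem hh hh', Or.inl ⟨hu, ?_⟩⟩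
      rw [ht]
      exact trans_aux rfl hA.1 hπ hπ' hh hh' (by rw [← hv, hv'])
    obtain ⟨π, hπ, h, hh, ⟨hu, hv⟩ | ⟨hu, hv⟩⟩ := h1
    · obtain ⟨π', hπ', h', hh', ⟨hv', ht⟩ | ⟨hv', ht⟩⟩ := h2
      · refine ⟨π, hπ, h * h', H.mul_mem hh hh', Or.inl ⟨hu, ?_⟩⟩
        rw [ht]
        exact trans_aux rfl hA.1 hπ hπ' hh hh' (by rw [← hv, hv'])
      · exact key (π'⁻¹ * (π * h)) (ren_mul (ren_inv hπ') (ren_mul hπ (hA.1 h hh).1))
          (solve (by rw [← hv, hv']))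
    · obtain ⟨π', hπ', h', hh', ⟨hv', ht⟩ | ⟨hv', ht⟩⟩ := h2
      · exact key ((π * h)⁻¹ * π') (ren_mul (ren_inv (ren_mul hπ (hA.1 h hh).1)) hπ')
          (solve (by rw [← hv, hv']))
      · refine ⟨π, hπ, h * h', H.mul_mem hh hh', Or.inr ⟨hu, ?_⟩⟩
        rw [ht]
        exact trans_aux hcs hA.1 hπ hπ' hh hh' (by rw [← hv, hv'])
  · rintro u v ⟨π, hπ, h, hh, ⟨rfl, rfl⟩ | ⟨rfl, rfl⟩⟩
    · exact ⟨π, hπ, h, hh, Or.inr ⟨hstm π hπ w, hstm _ (ren_mul hπ (hA.1 h hh).1) w⟩⟩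
    · refine ⟨π, hπ, h, hh, Or.inl ⟨?_, ?_⟩⟩
      · rw [hstm π hπ, hss]
      · rw [hstm _ (ren_mul hπ (hA.1 h hh).1), hss]
  · rintro u v σ hσ ⟨π, hπ, h, hh, ⟨rfl, rfl⟩ | ⟨rfl, rfl⟩⟩
    · refine ⟨σ * π, ren_mul hσ hπ, h, hh, Or.inl ⟨?_, ?_⟩⟩
      · rw [map_mul']
      · rw [mul_assoc, map_mul' w σ]
    · refine ⟨σ * π, ren_mul hσ hπ, h, hh, Or.inr ⟨?_, ?_⟩⟩
      · rw [map_mul']
      · rw [mul_assoc, map_mul' (st w) σ]

end Pool.Agent.Helper65.IS
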