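import Pool.Agent.Helper65.IS.St

set_option autoImplicit false

namespace Pool.Agent.Helper65.IS

open Equiv

theorem rho_fic (hb : StBAS) (h4 : StL4) (hi : StISO) (hr : StRH) : StRHO := by
  obtain ⟨hss, hsapp, hsst, hsub, hcomp, -, hne, hmap, hstm, -, -⟩ := hb
  intro th w H hth hw hiso hA
  obtain ⟨i1, i2, i3⟩ := hi th w hth hw hiso
  obtain ⟨r1, r2, r3, r4, r5, r6⟩ := hr w H hw hA
  have hstne : ∀ u : List Ltr, u ≠ [] → st u ≠ [] := by
    intro u hu h
    apply hu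
    rw [← hss u, h]
    rfl
  -- closure properties of `NN`
  have nna : ∀ a u b, NN w (a ++ u ++ b) → NN w u := by
    rintro a u b ⟨a', b', φ, hφ, h⟩
    refine ⟨a' ++ sub φ a, sub φ b ++ b', φ, hφ, ?_⟩
    have e : a' ++ sub φ (a ++ u ++ b) ++ b' = (a' ++ sub φ a) ++ sub φ u ++ (sub φ b ++ b') := by
      rw [hsub, hsub]
      simp only [List.append_assoc]
    rw [e] at h
    exact h
  have nns : ∀ (ψ : ℕ → List Ltr) u, (∀ i, ψ i ≠ []) → NN w (sub ψ u) → NN w u := by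
    rintro ψ u hψ ⟨a', b', φ, hφ, h⟩
    refine ⟨a', b', fun i => sub φ (ψ i), fun i => hne φ _ hφ (hψ i), ?_⟩
    rw [hcomp] at h
    exact h
  have nst : ∀ u, NN w (st u) → NN w u := by
    rintro u ⟨a', b', φ, hφ, h⟩
    refine ⟨st b', st a', φ, hφ, ?_⟩
    rw [hsst] at h
    have e : st (a' ++ st (sub φ u) ++ b') = st b' ++ sub φ u ++ st a' := by
      rw [hsapp, hsapp, hss, List.append_assoc]
    rcases h with h | h
    · right
      rw [h, e]
    · left
      rw [← hss w, h, e]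
  have nst' : ∀ u, NN w u → NN w (st u) := by
    intro u h
    apply nst
    rwa [hss]
  -- the relation `th` is contained in `rho`
  have cont : ∀ u v, th u v → rho th w H u v := by
    intro u v h
    obtain ⟨hu, hv⟩ := hth.ne u v h
    refine ⟨hu, hv, ?_⟩
    by_cases hn : NN w u
    · have hn' := i2 u v hn h
      by_cases hs : SS w u
      · have := i1 u v hs h
        subst this
        exact Or.inr (Or.inr (r1 _ hs))
      · refine Or.inr (Or.inl ⟨hn, hn', hs, fun hs' => hs ?_, h⟩)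
        have := i1 v u hs' (hth.symm u v h)
        rw [this]
        exact hs'
    · exact Or.inl ⟨hn, fun hn' => hn (i2 v u hn' (hth.symm u v h))⟩
  have hid : ∀ u : List Ltr, sub (fun i => [(i, false)]) u = u := by
    intro u
    have := hmap 1 (fun _ => rfl) u
    simpa using this.symm
  refine ⟨⟨?_, ?_, ?_, ?_, ?_, ?_, ?_⟩, cont⟩
  · rintro u v ⟨hu, hv, -⟩
    exact ⟨hu, hv⟩
  · intro u hu
    exact cont u u (hth.refl u hu)
  · rintro u v ⟨hu, hv, h | h | h⟩
    · exact ⟨hv, hu, Or.inl ⟨h.2, h.1⟩⟩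
    · exact ⟨hv, hu, Or.inr (Or.inl ⟨h.2.1, h.1, h.2.2.2.1, h.2.2.1, hth.symm _ _ h.2.2.2.2⟩)⟩
    · exact ⟨hv, hu, Or.inr (Or.inr (r3 _ _ h))⟩
  · rintro u v t ⟨hu, hv, h⟩ ⟨-, ht, h'⟩
    refine ⟨hu, ht, ?_⟩
    rcases h with h | h | h
    · rcases h' with h' | h' | h'
      · exact Or.inl ⟨h.1, h'.2⟩
      · exact absurd h'.1 h.2
      · exact absurd (i3 _ (r2 _ _ h').1) h.2
    · rcases h' with h' | h' | h'
      · exact absurd h.2.1 h'.1
      · exact Or.inr (Or.inl ⟨h.1, h'.2.1, h.2.2.1, h'.2.2.2.1,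
          hth.trans _ _ _ h.2.2.2.2 h'.2.2.2.2⟩)
      · exact absurd (r2 _ _ h').1 h.2.2.2.1
    · rcases h' with h' | h' | h'
      · exact absurd (i3 _ (r2 _ _ h).2.1) h'.1
      · exact absurd (r2 _ _ h).2.1 h'.2.2.1
      · exact Or.inr (Or.inr (r4 _ _ _ h h'))
  · rintro u v a b ⟨hu, hv, h⟩
    have hu' : a ++ u ++ b ≠ [] := by simp [hu]
    have hv' : a ++ v ++ b ≠ [] := by simp [hv]
    rcases h with h | h | h
    · exact ⟨hu', hv', Or.inl ⟨fun hn => h.1 (nna a u b hn), fun hn => h.2 (nna a v b hn)⟩⟩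
    · exact cont _ _ (hth.ctx u v a b h.2.2.2.2)
    · obtain ⟨su, sv, -⟩ := r2 _ _ h
      have hone : ∀ i : ℕ, [((i, false) : Ltr)] ≠ [] := fun i => by simp
      by_cases hn : NN w (a ++ u ++ b)
      · obtain ⟨rfl, rfl, -⟩ := h4 w u a b (fun i => [(i, false)]) hw su hone
          (by rw [hid]; exact hn)
        simp only [List.nil_append, List.append_nil]
        exact ⟨hu, hv, Or.inr (Or.inr h)⟩
      · refine ⟨hu', hv', Or.inl ⟨hn, fun hn' => hn ?_⟩⟩
        obtain ⟨rfl, rfl, -⟩ := h4 w v a b (fun i => [(i, false)]) hw sv hone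
          (by rw [hid]; exact hn')
        simpa using i3 _ su
  · rintro u v ⟨hu, hv, h | h | h⟩
    · exact ⟨hstne u hu, hstne v hv, Or.inl ⟨fun hn => h.1 (nst u hn), fun hn => h.2 (nst v hn)⟩⟩
    · exact cont _ _ (hth.star u v h.2.2.2.2)
    · exact ⟨hstne u hu, hstne v hv, Or.inr (Or.inr (r5 _ _ h))⟩
  · rintro u v φ hφ ⟨hu, hv, h⟩
    have hu' := hne φ u hφ hu
    have hv' := hne φ v hφ hv
    rcases h with h | h | h
    · exact ⟨hu', hv', Or.inl ⟨fun hn => h.1 (nns φ u hφ hn), fun hn => h.2 (nns φ v hφ hn)⟩⟩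
    · exact cont _ _ (hth.subst u v φ hφ h.2.2.2.2)
    · obtain ⟨su, sv, hc⟩ := r2 _ _ h
      by_cases hn : NN w (sub φ u)
      · obtain ⟨-, -, π, hπ, hp⟩ := h4 w u [] [] φ hw su hφ (by simpa using hn)
        refine ⟨hu', hv', Or.inr (Or.inr ?_)⟩
        rw [hp u (fun i hi => hi), hp v (fun i hi => by rw [hc]; exact hi)]
        exact r6 u v π hπ h
      · refine ⟨hu', hv', Or.inl ⟨hn, fun hn' => hn ?_⟩⟩
        obtain ⟨-, -, π, hπ, hp⟩ := h4 w v [] [] φ hw sv hφ (by simpa using hn')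
        rw [hp u (fun i hi => by rw [← hc]; exact hi)]
        exact i3 _ (r2 _ _ (r6 u v π hπ h)).1

end Pool.Agent.Helper65.IS
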