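import Mathlib

set_option autoImplicit false

namespace Pool.Agent.Helper65.IS

open Equiv

/-- Letters: `(i, false)` is the letter `x_i` and `(i, true)` is the letter `x_i^*`. -/
abbrev Ltr := ℕ × Bool

/-- Star of a letter. -/
def fl (a : Ltr) : Ltr := (a.1, !a.2)

/-- Star of a word. -/
def st (u : List Ltr) : List Ltr := (u.map fl).reverse

/-- Words (nonempty): the elements of the free involution semigroup. -/
abbrev Word := {u : List Ltr // u ≠ []}

/-- Involution semigroups. -/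
structure InvSg : Type 1 where
  /-- the carrier -/
  C : Type
  /-- multiplication -/
  mul : C → C → C
  /-- involution -/
  star : C → C
  assoc : ∀ a b c, mul (mul a b) c = mul a (mul b c)
  star_star : ∀ a, star (star a) = a
  star_mul : ∀ a b, star (mul a b) = mul (star b) (star a)

/-- Value of a letter. -/
def lit (S : InvSg) (v : ℕ → S.C) (a : Ltr) : S.C := if a.2 then S.star (v a.1) else v a.1

/-- Value of a word (`none` for the empty word). -/
def evl (S : InvSg) (v : ℕ → S.C) : List Ltr → Option S.C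
  | [] => none
  | a :: u => some (match evl S v u with
      | none => lit S v a
      | some c => S.mul (lit S v a) c)

/-- `S` satisfies the identity `u ≈ w`. -/
def Sat (S : InvSg) (u w : Word) : Prop := ∀ v : ℕ → S.C, evl S v u.1 = evl S v w.1

/-- The class of all involution semigroups satisfying a set of identities. -/
def Mod (T : Set (Word × Word)) : Set InvSg := {S | ∀ e ∈ T, Sat S e.1 e.2}

/-- The identities satisfied by a class. -/
def Th (K : Set InvSg) : Set (Word × Word) := {e | ∀ S ∈ K, Sat S e.1 e.2}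

/-- Varieties. -/
def IsVar (K : Set InvSg) : Prop := ∃ T, K = Mod T

/-- The variety generated by the union of two classes. -/
def vjoin (K L : Set InvSg) : Set InvSg := Mod (Th (K ∪ L))

/-- The lattice of subvarieties of `V` is modular. -/
def ModularL (V : Set InvSg) : Prop :=
  ∀ X Y Z : Set InvSg, IsVar X → IsVar Y → IsVar Z → X ⊆ V → Y ⊆ V → Z ⊆ V → X ⊆ Z →
    vjoin X (Y ∩ Z) = vjoin X Y ∩ Z

/-- The set of (indices of) letters of a word. -/
def con (u : List Ltr) : Finset ℕ := (u.map Prod.fst).toFinset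

/-- Substitution of words for letters. -/
def sub (φ : ℕ → List Ltr) (u : List Ltr) : List Ltr :=
  u.flatMap fun a => if a.2 then st (φ a.1) else φ a.1

/-- Fully invariant congruences on the free involution semigroup. -/
structure FIC (r : List Ltr → List Ltr → Prop) : Prop where
  ne : ∀ u v, r u v → u ≠ [] ∧ v ≠ []
  refl : ∀ u, u ≠ [] → r u u
  symm : ∀ u v, r u v → r v u
  trans : ∀ u v w, r u v → r v w → r u w
  ctx : ∀ u v a b, r u v → r (a ++ u ++ b) (a ++ v ++ b)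
  star : ∀ u v, r u v → r (st u) (st v)
  subst : ∀ u v (φ : ℕ → List Ltr), (∀ i, φ i ≠ []) → r u v → r (sub φ u) (sub φ v)

/-- Renamings. -/
def Ren (π : Perm Ltr) : Prop := ∀ a, π (fl a) = fl (π a)

/-- Renamings of the letters in `c`. -/
def InG (c : Finset ℕ) (π : Perm Ltr) : Prop := Ren π ∧ ∀ a : Ltr, a.1 ∉ c → π a = a

/-- Words below `w` or `w^*`. -/
def NN (w u : List Ltr) : Prop :=
  ∃ (a b : List Ltr) (φ : ℕ → List Ltr), (∀ i, φ i ≠ []) ∧
    (w = a ++ sub φ u ++ b ∨ st w = a ++ sub φ u ++ b)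

/-- Renamings of `w` and of `w^*`. -/
def SS (w u : List Ltr) : Prop := ∃ π, Ren π ∧ (u = w.map π ∨ u = (st w).map π)

/-- The relation given by a group of renamings. -/
def RH (w : List Ltr) (H : Subgroup (Perm Ltr)) (u v : List Ltr) : Prop :=
  ∃ π, Ren π ∧ ∃ h ∈ H, (u = w.map π ∧ v = w.map (π * h : Perm Ltr)) ∨
    (u = (st w).map π ∧ v = (st w).map (π * h : Perm Ltr))

/-- The fully invariant congruence attached to `H`. -/
def rho (th : List Ltr → List Ltr → Prop) (w : List Ltr) (H : Subgroup (Perm Ltr))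
    (u v : List Ltr) : Prop :=
  u ≠ [] ∧ v ≠ [] ∧ ((¬ NN w u ∧ ¬ NN w v) ∨
    (NN w u ∧ NN w v ∧ ¬ SS w u ∧ ¬ SS w v ∧ th u v) ∨ RH w H u v)

/-- Admissible groups for `w`. -/
def Adm (w : List Ltr) (H : Subgroup (Perm Ltr)) : Prop :=
  (∀ h ∈ H, InG (con w) h) ∧
  ∀ om, InG (con w) om → st w = w.map om → ∀ h ∈ H, om⁻¹ * h * om ∈ H

/-! ### Statements of the modules -/

/-- (I1) relatively free objects. -/
def StBIR : Prop := ∀ r : List Ltr → List Ltr → Prop, FIC r →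
  ∃ S : InvSg, ∀ u v : Word, Sat S u v ↔ r u.1 v.1

/-- (I2) identities of a class form a fully invariant congruence. -/
def StTH : Prop := ∀ K : Set InvSg,
  FIC fun u v => ∃ (hu : u ≠ []) (hv : v ≠ []), ((⟨u, hu⟩, ⟨v, hv⟩) : Word × Word) ∈ Th K

/-- (I3) extension of partial renamings. -/
def StEXT : Prop := ∀ (c : Finset ℕ) (f : ℕ → Ltr), (∀ i ∈ c, ∀ j ∈ c, (f i).1 = (f j).1 → i = j) →
  ∃ π, Ren π ∧ ∀ i ∈ c, π (i, false) = f i ∧ π (i, true) = fl (f i)

/-- (I4) basic facts about words. -/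
def StBAS : Prop :=
  (∀ u, st (st u) = u) ∧
  (∀ u v, st (u ++ v) = st v ++ st u) ∧
  (∀ φ u, sub φ (st u) = st (sub φ u)) ∧
  (∀ φ u v, sub φ (u ++ v) = sub φ u ++ sub φ v) ∧
  (∀ (φ ψ : ℕ → List Ltr) u, sub ψ (sub φ u) = sub (fun i => sub ψ (φ i)) u) ∧
  (∀ (φ : ℕ → List Ltr) u, (∀ i, φ i ≠ []) → u.length ≤ (sub φ u).length) ∧
  (∀ (φ : ℕ → List Ltr) u, (∀ i, φ i ≠ []) → u ≠ [] → sub φ u ≠ []) ∧
  (∀ (π : Perm Ltr), Ren π → ∀ u, u.map π = sub (fun i => [π (i, false)]) u) ∧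
  (∀ (π : Perm Ltr), Ren π → ∀ u, st (u.map π) = (st u).map π) ∧
  (∀ u, con (st u) = con u) ∧
  (∀ u v, st u = st v → u = v)

/-- (I5) images of renamings of `w` which are still below `w`. -/
def StL4 : Prop := ∀ (w s a b : List Ltr) (φ : ℕ → List Ltr), w ≠ [] → SS w s →
  (∀ i, φ i ≠ []) → NN w (a ++ sub φ s ++ b) →
  a = [] ∧ b = [] ∧ ∃ π, Ren π ∧ ∀ t, (∀ i ∈ con t, i ∈ con s) → sub φ t = t.map π

/-- (I6) `SS` words are isoterms and related facts. -/
def StISO : Prop := ∀ (th : List Ltr → List Ltr → Prop) (w : List Ltr), FIC th → w ≠ [] →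
  (∀ u, th w u → u = w) →
  (∀ s u, SS w s → th s u → u = s) ∧ (∀ u v, NN w u → th u v → NN w v) ∧
  (∀ s, SS w s → NN w s)

/-- (I7) the adjustment of a renaming carrying `w` to `w^*`. -/
def StADJ : Prop := ∀ (w : List Ltr) (π : Perm Ltr), Ren π → st w = w.map π →
  ∃ om, InG (con w) om ∧ om * om = 1 ∧ st w = w.map om ∧ ∀ a ∈ w, om a = π a

/-- (I8) `RH` is an equivalence relation on the renamings of `w` and `w^*`, invariant under
renamings and star. -/
def StRH : Prop := ∀ (w : List Ltr) (H : Subgroup (Perm Ltr)), w ≠ [] → Adm w H →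
  (∀ s, SS w s → RH w H s s) ∧ (∀ u v, RH w H u v → SS w u ∧ SS w v ∧ con u = con v) ∧
  (∀ u v, RH w H u v → RH w H v u) ∧ (∀ u v t, RH w H u v → RH w H v t → RH w H u t) ∧
  (∀ u v, RH w H u v → RH w H (st u) (st v)) ∧
  (∀ u v (π : Perm Ltr), Ren π → RH w H u v → RH w H (u.map π) (v.map π))

/-- (I9) `rho` is a fully invariant congruence containing `th`. -/
def StRHO : Prop := ∀ (th : List Ltr → List Ltr → Prop) (w : List Ltr)
  (H : Subgroup (Perm Ltr)), FIC th → w ≠ [] → (∀ u, th w u → u = w) → Adm w H →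
  FIC (rho th w H) ∧ ∀ u v, th u v → rho th w H u v

/-- (I10) `rho` determines `H`. -/
def StDIST : Prop := ∀ (th : List Ltr → List Ltr → Prop) (w : List Ltr)
  (H : Subgroup (Perm Ltr)), FIC th → w ≠ [] → (∀ u, th w u → u = w) → Adm w H →
  ∀ g, InG (con w) g → rho th w H w (w.map g) → g ∈ H

/-- (I11) intersections. -/
def StMEET : Prop := ∀ (th : List Ltr → List Ltr → Prop) (w : List Ltr)
  (H K : Subgroup (Perm Ltr)), FIC th → w ≠ [] → (∀ u, th w u → u = w) → Adm w H → Adm w K →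
  ∀ u v, rho th w H u v → rho th w K u v → rho th w (H ⊓ K) u v

/-- (I12) joins. -/
def StJOIN : Prop := ∀ (th : List Ltr → List Ltr → Prop) (w : List Ltr)
  (H1 H2 K : Subgroup (Perm Ltr)), H2 ≤ H1 ⊔ K → (∀ h ∈ H1 ⊔ K, Ren h) →
  ∀ r, FIC r → (∀ u v, rho th w H1 u v → r u v) → (∀ u v, rho th w K u v → r u v) →
  w ≠ [] → ∀ u v, rho th w H2 u v → r u v

/-- (I13) pentagons of groups of renamings. -/
def StPEN : Prop := ∀ (c : Finset ℕ) (om : Perm Ltr), InG c om → om * om = 1 →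
  (3 ≤ c.card ∨ (2 ≤ c.card ∧ ((∀ a : Ltr, a.1 ∈ c → om a = a) ∨
    ∀ a : Ltr, a.1 ∈ c → om a = fl a))) →
  ∃ H1 H2 K : Subgroup (Perm Ltr), (∀ h ∈ H2 ⊔ K, InG c h) ∧ H1 ≤ H2 ∧ (∃ g ∈ H2, g ∉ H1) ∧
    H2 ⊓ K = ⊥ ∧ H2 ≤ H1 ⊔ K ∧ (∀ h ∈ H1, om⁻¹ * h * om ∈ H1) ∧
    (∀ h ∈ H2, om⁻¹ * h * om ∈ H2) ∧ ∀ h ∈ K, om⁻¹ * h * om ∈ K

/-- (I14) the result. -/
def StFIN : Prop := ∀ V : Set InvSg, IsVar V → ModularL V → ∀ w : Word,
  (∀ u : Word, (∀ S ∈ V, Sat S w u) → u = w) →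
  (con w.1).card ≤ 2 ∧ ((con w.1).card = 2 → ∃ π, Ren π ∧ st w.1 = w.1.map π ∧
    ¬ (∀ a ∈ w.1, π a = a) ∧ ¬ ∀ a ∈ w.1, π a = fl a)

end Pool.Agent.Helper65.IS
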