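import Pool.Agent.Helper65.IS.St

set_option autoImplicit false

namespace Pool.Agent.Helper65.IS

open Equiv

/-- product of optional values -/
def omul (S : InvSg) : Option S.C → Option S.C → Option S.C
  | none, y => y
  | some x, none => some x
  | some x, some y => some (S.mul x y)

theorem omul_none_right (S : InvSg) (x : Option S.C) : omul S x none = x := by
  cases x <;> rfl

theorem omul_assoc (S : InvSg) (x y z : Option S.C) :
    omul S (omul S x y) z = omul S x (omul S y z) := by
  cases x <;> cases y <;> cases z <;> simp [omul, S.assoc]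

theorem evl_cons (S : InvSg) (v : ℕ → S.C) (a : Ltr) (u : List Ltr) :
    evl S v (a :: u) = omul S (some (lit S v a)) (evl S v u) := by
  show some _ = _
  cases evl S v u <;> rfl

theorem evl_append (S : InvSg) (v : ℕ → S.C) (a u : List Ltr) :
    evl S v (a ++ u) = omul S (evl S v a) (evl S v u) := by
  induction a with
  | nil => rfl
  | cons x a ih => rw [List.cons_append, evl_cons, ih, evl_cons, omul_assoc]

theorem evl_single (S : InvSg) (v : ℕ → S.C) (a : Ltr) :
    evl S v [a] = some (lit S v a) := rfl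

theorem lit_fl (S : InvSg) (v : ℕ → S.C) (a : Ltr) :
    lit S v (fl a) = S.star (lit S v a) := by
  rcases a with ⟨i, b⟩
  cases b <;> simp [lit, fl, S.star_star]

theorem map_star_omul (S : InvSg) (x y : Option S.C) :
    (omul S x y).map S.star = omul S (y.map S.star) (x.map S.star) := by
  cases x <;> cases y <;> simp [omul, S.star_mul]

theorem st_cons (a : Ltr) (u : List Ltr) : st (a :: u) = st u ++ [fl a] := by
  simp [st]

theorem evl_st (S : InvSg) (v : ℕ → S.C) (u : List Ltr) :
    evl S v (st u) = (evl S v u).map S.star := by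
  induction u with
  | nil => rfl
  | cons a u ih =>
    rw [st_cons, evl_append, ih, evl_single, lit_fl, evl_cons, map_star_omul]
    rfl

theorem evl_ne (S : InvSg) (v : ℕ → S.C) (u : List Ltr) (hu : u ≠ []) :
    ∃ c, evl S v u = some c := by
  cases u with
  | nil => exact absurd rfl hu
  | cons a u => exact ⟨_, rfl⟩

theorem evl_sub (S : InvSg) (v v' : ℕ → S.C) (φ : ℕ → List Ltr)
    (h : ∀ i, evl S v (φ i) = some (v' i)) (u : List Ltr) :
    evl S v (sub φ u) = evl S v' u := by
  induction u with
  | nil => rfl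
  | cons a u ih =>
    have h1 : sub φ (a :: u) = (if a.2 then st (φ a.1) else φ a.1) ++ sub φ u := by
      simp [sub]
    rw [h1, evl_append, ih, evl_cons]
    congr 1
    rcases a with ⟨i, b⟩
    cases b
    · simp [lit, h]
    · simp [lit, evl_st, h]

theorem st_ne (u : List Ltr) (hu : u ≠ []) : st u ≠ [] := by
  intro h
  apply hu
  simpa [st] using h

theorem sub_ne (φ : ℕ → List Ltr) (hφ : ∀ i, φ i ≠ []) (u : List Ltr) (hu : u ≠ []) :
    sub φ u ≠ [] := by
  cases u with
  | nil => exact absurd rfl hu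
  | cons a u =>
    have h1 : sub φ (a :: u) = (if a.2 then st (φ a.1) else φ a.1) ++ sub φ u := by
      simp [sub]
    rw [h1]
    intro h
    have h2 := (List.append_eq_nil_iff.1 h).1
    by_cases hb : a.2
    · rw [if_pos hb] at h2; exact st_ne _ (hφ _) h2
    · rw [if_neg hb] at h2; exact hφ _ h2

/-- Module TH. -/
theorem thm : StTH := by
  intro K
  refine ⟨?_, ?_, ?_, ?_, ?_, ?_, ?_⟩
  · rintro u v ⟨hu, hv, -⟩
    exact ⟨hu, hv⟩
  · intro u hu
    exact ⟨hu, hu, fun S _ v => rfl⟩
  · rintro u v ⟨hu, hv, h⟩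
    exact ⟨hv, hu, fun S hS w => (h S hS w).symm⟩
  · rintro u v w ⟨hu, hv, h⟩ ⟨_, hw, h'⟩
    exact ⟨hu, hw, fun S hS x => (h S hS x).trans (h' S hS x)⟩
  · rintro u v a b ⟨hu, hv, h⟩
    refine ⟨by simp [hu], by simp [hv], fun S hS x => ?_⟩
    have h1 : evl S x u = evl S x v := h S hS x
    show evl S x (a ++ u ++ b) = evl S x (a ++ v ++ b)
    rw [evl_append, evl_append, h1, evl_append, evl_append]
  · rintro u v ⟨hu, hv, h⟩
    refine ⟨st_ne u hu, st_ne v hv, fun S hS x => ?_⟩
    have h1 : evl S x u = evl S x v := h S hS x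
    show evl S x (st u) = evl S x (st v)
    rw [evl_st, evl_st, h1]
  · rintro u v φ hφ ⟨hu, hv, h⟩
    refine ⟨sub_ne φ hφ u hu, sub_ne φ hφ v hv, fun S hS x => ?_⟩
    choose v' hv' using fun i => evl_ne S x (φ i) (hφ i)
    have h1 : evl S v' u = evl S v' v := h S hS v'
    show evl S x (sub φ u) = evl S x (sub φ v)
    rw [evl_sub S x v' φ hv', evl_sub S x v' φ hv', h1]

end Pool.Agent.Helper65.IS
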